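import Pool.Agent.Lib.MP_a3e05c_co.KL.TwoPt
import Pool.Agent.Lib.MP_a3e05c_co.KL.Free

/-!
# EULER: two leaves are negatively correlated

The free ends of the two leaves are merged into one new vertex, and the generating polynomial of
the number of edges directed to this vertex is palindromic with real roots.
-/

set_option linter.unusedSectionVars false

open Finset

namespace MP_a3e05c_co.KL

variable {V E : Type} [Fintype V] [DecidableEq V] [Fintype E] [DecidableEq E]

/-- the ends of `e` and `f` outside `A` are merged into the vertex `none` -/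
private def LC_hd (hd : E → Bool → V) (A : Finset V) (e f : E) (g : E) (b : Bool) : Option V :=
  if (g = e ∨ g = f) ∧ hd g b ∉ A then none else some (hd g b)

private theorem LC_some {hd : E → Bool → V} {A : Finset V} {e f g : E} {b : Bool} {v : V}
    (hv : v ∈ A) : LC_hd hd A e f g b = some v ↔ hd g b = v := by
  unfold LC_hd
  by_cases h : (g = e ∨ g = f) ∧ hd g b ∉ A
  · rw [if_pos h]
    constructor
    · intro h1
      cases h1
    · intro h1
      exact absurd (h1 ▸ hv) h.2
  · rw [if_neg h]
    constructor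
    · intro h1
      exact Option.some.inj h1
    · intro h1
      rw [h1]

private theorem LC_none {hd : E → Bool → V} {A : Finset V} {e f g : E} {b : Bool} :
    LC_hd hd A e f g b = none ↔ (g = e ∨ g = f) ∧ hd g b ∉ A := by
  unfold LC_hd
  by_cases h : (g = e ∨ g = f) ∧ hd g b ∉ A
  · rw [if_pos h]
    exact ⟨fun _ => h, fun _ => rfl⟩
  · rw [if_neg h]
    constructor
    · intro h1
      cases h1
    · intro h1
      exact absurd h1 h

private theorem LC_mem {A : Finset V} {x : Option V} :
    x ∈ A.map Function.Embedding.some ↔ ∃ v ∈ A, x = some v := by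
  rw [mem_map]
  constructor
  · rintro ⟨v, hv, rfl⟩
    exact ⟨v, hv, rfl⟩
  · rintro ⟨v, hv, rfl⟩
    exact ⟨v, hv, rfl⟩

private theorem LC_sg {hd : E → Bool → V} {A : Finset V} {e f g : E} {v : V} (hv : v ∈ A)
    (ω : E → Bool) : sg (LC_hd hd A e f) ω (some v) g = sg hd ω v g := by
  unfold sg
  simp only [LC_some hv]

private theorem LC_Om {hd : E → Bool → V} {A : Finset V} {e f : E} :
    Om (LC_hd hd A e f) (A.map Function.Embedding.some) = Om hd A := by
  ext ω
  rw [mem_Om, mem_Om]
  constructor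
  · intro h v hv
    have h1 := h (some v) (LC_mem.2 ⟨v, hv, rfl⟩)
    unfold Bal at h1 ⊢
    rw [← h1]
    exact sum_congr rfl fun g _ => (LC_sg hv ω).symm
  · intro h x hx
    obtain ⟨v, hv, rfl⟩ := LC_mem.1 hx
    have h1 := h v hv
    unfold Bal at h1 ⊢
    rw [← h1]
    exact sum_congr rfl fun g _ => LC_sg hv ω

/-- **Two distinct leaves are negatively correlated.** -/
theorem leaf_corr {hd : E → Bool → V} (hl : NoLoop hd) {A : Finset V} {u v : V} (hu : u ∈ A)
    (hv : v ∈ A) {e f : E} (he : e ∈ frees hd A u) (hf : f ∈ frees hd A v) (hef : e ≠ f) :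
    ∑ ω ∈ Om hd A, sg hd ω u e * sg hd ω v f ≤ 0 := by
  rw [frees, mem_filter] at he hf
  obtain ⟨-, b, hb, hbA⟩ := he
  obtain ⟨-, c, hc, hcA⟩ := hf
  set H := LC_hd hd A e f with hH
  set A' := A.map Function.Embedding.some with hA'
  have hnone : (none : Option V) ∉ A' := by
    intro h
    obtain ⟨v, _, h2⟩ := LC_mem.1 h
    cases h2
  -- the edges
  have he1 : H e b = some u := (LC_some hu).2 hb
  have he2 : H e (!b) = none := LC_none.2 ⟨Or.inl rfl, hbA⟩
  have hf1 : H f c = some v := (LC_some hv).2 hc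
  have hf2 : H f (!c) = none := LC_none.2 ⟨Or.inr rfl, hcA⟩
  have hl' : NoLoop H := by
    intro g h
    by_cases h1 : g = e
    · subst h1
      cases b
      · rw [Bool.not_false] at he2
        rw [he1, he2] at h
        cases h
      · rw [Bool.not_true] at he2
        rw [he1, he2] at h
        cases h
    · by_cases h2 : g = f
      · subst h2
        cases c
        · rw [Bool.not_false] at hf2
          rw [hf1, hf2] at h
          cases h
        · rw [Bool.not_true] at hf2
          rw [hf1, hf2] at h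
          cases h
      · have h3 : ∀ b', H g b' = some (hd g b') := by
          intro b'
          rw [hH]
          unfold LC_hd
          rw [if_neg]
          rintro ⟨h4 | h4, -⟩
          · exact h1 h4
          · exact h2 h4
        rw [h3, h3] at h
        exact hl g (Option.some.inj h)
  have hbtw : btw H A' none = {e, f} := by
    ext g
    rw [btw, mem_filter, mem_insert, mem_singleton]
    constructor
    · rintro ⟨-, b', h1, -⟩
      exact (LC_none.1 h1).1
    · rintro (rfl | rfl)
      · refine ⟨mem_univ _, !b, he2, ?_⟩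
        rw [Bool.not_not, he1]
        exact LC_mem.2 ⟨u, hu, rfl⟩
      · refine ⟨mem_univ _, !c, hf2, ?_⟩
        rw [Bool.not_not, hf1]
        exact LC_mem.2 ⟨v, hv, rfl⟩
  have hcard : (btw H A' none).card = 2 := by
    rw [hbtw, card_pair hef]
  -- signs
  have hse : ∀ ω, sg H ω none e = -sg hd ω u e := by
    intro ω
    rw [← LC_sg (e := e) (f := f) hu ω, ← hH]
    unfold sg
    cases hω : ω e <;> cases b <;> simp_all
  have hsf : ∀ ω, sg H ω none f = -sg hd ω v f := by
    intro ω
    rw [← LC_sg (e := e) (f := f) hv ω, ← hH]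
    unfold sg
    cases hω : ω f <;> cases c <;> simp_all
  have hsqe : ∀ ω, sg hd ω u e ^ 2 = 1 := by
    intro ω
    rw [← LC_sg (e := e) (f := f) hu ω, ← hH]
    unfold sg
    cases hω : ω e <;> cases b <;> simp_all
  have hsqf : ∀ ω, sg hd ω v f ^ 2 = 1 := by
    intro ω
    rw [← LC_sg (e := e) (f := f) hv ω, ← hH]
    unfold sg
    cases hω : ω f <;> cases c <;> simp_all
  rcases (Om hd A).eq_empty_or_nonempty with hemp | hne
  · rw [hemp]
    simp
  have hOm : Om H A' = Om hd A := LC_Om
  obtain ⟨s, hs⟩ := ff_factor hl' hnone (by rw [hOm]; exact hne)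
  have hvar := var_eq hl' hnone hs
  rw [hOm] at hvar
  have hs2 : ∑ i, s i ≤ 1 := by
    have h1 : ∑ i, s i ≤ ∑ i : Fin ((btw H A' none).card / 2), (1 : ℝ) :=
      sum_le_sum fun i _ => (hs.1 i).2
    refine h1.trans ?_
    rw [sum_const, card_univ, Fintype.card_fin, hcard]
    norm_num
  have h0 : (((btw H A' none).card % 2 : ℕ) : ℝ) = 0 := by
    rw [hcard]
    norm_num
  rw [h0, add_zero] at hvar
  have hL : ∑ ω ∈ Om hd A, ((∑ g ∈ btw H A' none, sg H ω none g : ℤ) : ℝ) ^ 2 =
      2 * ((Om hd A).card : ℝ) + 2 * ((∑ ω ∈ Om hd A, sg hd ω u e * sg hd ω v f : ℤ) : ℝ) := by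
    have h1 : ∀ ω ∈ Om hd A, ((∑ g ∈ btw H A' none, sg H ω none g : ℤ) : ℝ) ^ 2 =
        2 + 2 * ((sg hd ω u e * sg hd ω v f : ℤ) : ℝ) := by
      intro ω _
      rw [hbtw, sum_pair hef, hse, hsf]
      have h2 : (-sg hd ω u e + -sg hd ω v f) ^ 2 = 2 + 2 * (sg hd ω u e * sg hd ω v f) := by
        have e1 := hsqe ω
        have e2 := hsqf ω
        linarith
      exact_mod_cast h2
    rw [sum_congr rfl h1, sum_add_distrib, sum_const, nsmul_eq_mul, ← mul_sum]
    push_cast
    ring
  rw [hL] at hvar
  have hN : (0 : ℝ) ≤ ((Om hd A).card : ℝ) := Nat.cast_nonneg _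
  have h5 : ((Om hd A).card : ℝ) * (2 * ∑ i, s i) ≤ 2 * ((Om hd A).card : ℝ) := by
    nlinarith
  have h6 : ((∑ ω ∈ Om hd A, sg hd ω u e * sg hd ω v f : ℤ) : ℝ) ≤ 0 := by linarith
  exact_mod_cast h6

end MP_a3e05c_co.KL
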