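import Pool.Agent.Lib.MP_a3e05c_co.EX.VarSub
import Pool.Agent.Lib.MP_a3e05c_co.EX.LeafCorr

/-!
# EULER: the variance at a vertex with one neighbour `y` carrying a single leaf

Let `x ∉ A`, let `y ∈ A` be a neighbour of `x` with exactly one leaf (the edge `x y`), and let the
other neighbours of `x` in `A` carry at least `ℓ` leaves each.  The signs of all leaves have sum
`0`, any two leaves are negatively correlated, and the leaves at the same vertex are exchangeable;
therefore the covariance of the edge `x y` with the sum of the other edges is at least `-1/ℓ`.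
-/

set_option linter.unusedSectionVars false

open Finset

namespace MP_a3e05c_co.KL

variable {V E : Type} [Fintype V] [DecidableEq V] [Fintype E] [DecidableEq E]

/-- the signs of one edge at the vertices of `A` -/
private theorem EV_edge {hd : E → Bool → V} (hl : NoLoop hd) (A : Finset V) (ω : E → Bool)
    (f : E) : ∑ v ∈ A, (if f ∈ frees hd A v then sg hd ω v f else 0) = ∑ v ∈ A, sg hd ω v f := by
  by_cases h : hd f true ∈ A ∧ hd f false ∈ A
  · have h1 : ∀ v ∈ A, (if f ∈ frees hd A v then sg hd ω v f else 0) = 0 := by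
      intro v _
      rw [if_neg]
      intro hf
      rw [frees, mem_filter] at hf
      obtain ⟨-, b, -, hb⟩ := hf
      cases b
      · exact hb h.1
      · exact hb h.2
    rw [sum_congr rfl h1, sum_const_zero]
    have hne := hl f
    have h2 : ∀ v, sg hd ω v f = (if hd f (ω f) = v then (1 : ℤ) else 0) -
        (if hd f (!ω f) = v then (1 : ℤ) else 0) := by
      intro v
      unfold sg
      by_cases ha : hd f (ω f) = v
      · rw [if_pos ha, if_pos ha, if_neg]
        · ring
        · intro hb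
          cases hω : ω f <;> simp_all
      · rw [if_neg ha, if_neg ha]
        by_cases hb : hd f (!ω f) = v
        · rw [if_pos hb, if_pos hb]
          ring
        · rw [if_neg hb, if_neg hb]
          ring
    rw [sum_congr rfl fun v _ => h2 v, sum_sub_distrib, sum_ite_eq, sum_ite_eq, if_pos, if_pos]
    · ring
    · cases ω f
      · exact h.1
      · exact h.2
    · cases ω f
      · exact h.2
      · exact h.1
  · refine sum_congr rfl fun v hv => ?_
    by_cases hf : f ∈ frees hd A v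
    · rw [if_pos hf]
    · rw [if_neg hf]
      symm
      unfold sg
      have h3 : ∀ b, hd f b ≠ v := by
        intro b hb
        apply hf
        rw [frees, mem_filter]
        refine ⟨mem_univ _, b, hb, ?_⟩
        intro hb2
        apply h
        cases b
        · rw [Bool.not_false] at hb2
          exact ⟨hb2, hb ▸ hv⟩
        · rw [Bool.not_true] at hb2
          exact ⟨hb ▸ hv, hb2⟩
      rw [if_neg (h3 _), if_neg (h3 _)]

/-- the signs of all leaves have sum `0` -/
theorem leaf_sum {hd : E → Bool → V} (hl : NoLoop hd) {A : Finset V} {ω : E → Bool}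
    (hω : ω ∈ Om hd A) : ∑ v ∈ A, ∑ f ∈ frees hd A v, sg hd ω v f = 0 := by
  have h1 : ∑ v ∈ A, ∑ f, sg hd ω v f = 0 := sum_eq_zero fun v hv => mem_Om.1 hω v hv
  rw [← h1]
  have h2 : ∀ v, ∑ f ∈ frees hd A v, sg hd ω v f =
      ∑ f, (if f ∈ frees hd A v then sg hd ω v f else 0) := by
    intro v
    rw [← sum_filter, filter_mem_eq_inter, univ_inter]
  rw [sum_congr rfl fun v _ => h2 v, sum_comm, sum_comm (s := A)]
  exact sum_congr rfl fun f _ => EV_edge hl A ω f

/-- the covariance of the edge `e0` (the only leaf of `y`) with the other edges at `x` -/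
theorem exit_cov {hd : E → Bool → V} (hs : Simple hd) {A : Finset V} {x : V} (hx : x ∉ A)
    {e0 : E} (he0 : e0 ∈ btw hd A x) (hy1 : frees hd A (oth hd x e0) = {e0}) {l : ℕ}
    (hL : ∀ e ∈ btw hd A x, e ≠ e0 → l ≤ (frees hd A (oth hd x e)).card) :
    -((Om hd A).card : ℤ) ≤
      l * ∑ e ∈ (btw hd A x).erase e0, ∑ ω ∈ Om hd A, sg hd ω x e0 * sg hd ω x e := by
  classical
  have hl := hs.1
  set y := oth hd x e0 with hy
  obtain ⟨hyA, hyx, b0, hb0, hb0'⟩ := oth_spec hx he0
  rw [← hy] at hyA hyx hb0'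
  have hfe0 : e0 ∈ frees hd A y := by
    rw [hy1]
    exact mem_singleton_self _
  -- covariances with the leaves
  set K : V → E → ℤ := fun v f => ∑ ω ∈ Om hd A, sg hd ω y e0 * sg hd ω v f with hK
  have hne0 : ∀ v ∈ A, v ≠ y → ∀ f ∈ frees hd A v, f ≠ e0 := by
    rintro v hv hvy f hf rfl
    rw [frees, mem_filter] at hf
    obtain ⟨-, b, hb, hbA⟩ := hf
    by_cases hbb : b = b0
    · subst hbb
      exact hx (hb0 ▸ hb ▸ hv)
    · have hb3 : b = !b0 := by
        cases b <;> cases b0 <;> simp_all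
      rw [hb3, hb0'] at hb
      exact hvy hb.symm
  have hneg : ∀ v ∈ A, v ≠ y → ∀ f ∈ frees hd A v, K v f ≤ 0 := by
    intro v hv hvy f hf
    exact leaf_corr hl hyA hv hfe0 hf (fun h => hne0 v hv hvy f hf h.symm)
  -- total
  have htot : ∑ v ∈ A, ∑ f ∈ frees hd A v, K v f = 0 := by
    have h1 : ∑ v ∈ A, ∑ f ∈ frees hd A v, K v f =
        ∑ ω ∈ Om hd A, sg hd ω y e0 * ∑ v ∈ A, ∑ f ∈ frees hd A v, sg hd ω v f := by
      rw [hK]
      simp only
      rw [sum_congr rfl fun v _ => sum_comm, sum_comm]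
      refine sum_congr rfl fun ω _ => ?_
      rw [mul_sum]
      refine sum_congr rfl fun v _ => ?_
      rw [mul_sum]
    rw [h1]
    refine sum_eq_zero fun ω hω => ?_
    rw [leaf_sum hl hω, mul_zero]
  have hKy : ∑ f ∈ frees hd A y, K y f = (Om hd A).card := by
    rw [hy1, sum_singleton, hK]
    simp only
    have h1 : ∀ ω ∈ Om hd A, sg hd ω y e0 * sg hd ω y e0 = 1 := by
      intro ω _
      have h2 := sg_sq1 hb0' ω
      exact_mod_cast h2
    rw [sum_congr rfl h1]
    simp
  rw [← add_sum_erase A _ hyA, hKy] at htot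
  -- the neighbours of `x`
  set T := (btw hd A x).erase e0 with hT
  have hTb : ∀ e ∈ T, e ∈ btw hd A x ∧ e ≠ e0 := fun e he => ⟨mem_of_mem_erase he, ne_of_mem_erase he⟩
  have hinj : Set.InjOn (oth hd x) T := fun e he f hf hef =>
    oth_inj hs hx (hTb e he).1 (hTb f hf).1 hef
  have himg : T.image (oth hd x) ⊆ A.erase y := by
    intro v hv
    rw [mem_image] at hv
    obtain ⟨e, he, rfl⟩ := hv
    obtain ⟨h1, h2⟩ := hTb e he
    rw [mem_erase]
    refine ⟨fun h3 => h2 (oth_inj hs hx h1 he0 h3), (oth_spec hx h1).1⟩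
  have hsub : ∑ v ∈ A.erase y, ∑ f ∈ frees hd A v, K v f ≤
      ∑ v ∈ T.image (oth hd x), ∑ f ∈ frees hd A v, K v f := by
    have h1 : ∑ v ∈ T.image (oth hd x), -∑ f ∈ frees hd A v, K v f ≤
        ∑ v ∈ A.erase y, -∑ f ∈ frees hd A v, K v f := by
      refine sum_le_sum_of_subset_of_nonneg himg fun v hv _ => ?_
      rw [mem_erase] at hv
      have h2 := sum_nonpos (hneg v hv.2 hv.1)
      linarith
    rw [sum_neg_distrib, sum_neg_distrib] at h1
    linarith
  rw [sum_image hinj] at hsub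
  have hex : ∀ e ∈ T, ∑ f ∈ frees hd A (oth hd x e), K (oth hd x e) f ≤ l * K (oth hd x e) e := by
    intro e he
    obtain ⟨h1, h2⟩ := hTb e he
    obtain ⟨h3, h4, b, h5, h6⟩ := oth_spec hx h1
    have h7 : oth hd x e ≠ y := fun h => h2 (oth_inj hs hx h1 he0 h)
    have h8 := oth_free hx h1
    have h9 : ∀ f ∈ frees hd A (oth hd x e), K (oth hd x e) f = K (oth hd x e) e := by
      intro f hf
      have h10 := sum_exch hl h3 hyA h7 hf h8 hfe0
      rw [hK]
      simp only
      simp_rw [mul_comm (sg hd _ y e0)]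
      exact h10
    rw [sum_congr rfl h9, sum_const, nsmul_eq_mul]
    have h11 := hneg _ h3 h7 e h8
    have h12 : (l : ℤ) ≤ ((frees hd A (oth hd x e)).card : ℤ) := by exact_mod_cast hL e h1 h2
    nlinarith
  have hfin := sum_le_sum hex
  rw [← mul_sum] at hfin
  have hKK : ∀ e ∈ T, ∑ ω ∈ Om hd A, sg hd ω x e0 * sg hd ω x e = K (oth hd x e) e := by
    intro e he
    obtain ⟨h1, h2⟩ := hTb e he
    obtain ⟨h3, h4, b, h5, h6⟩ := oth_spec hx h1
    rw [hK]
    simp only
    refine sum_congr rfl fun ω _ => ?_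
    rw [sg_neg1 hyx hb0 hb0' ω, sg_neg1 h4 h5 h6 ω]
    ring
  rw [sum_congr rfl hKK]
  linarith

/-- **The exit inequality.** -/
theorem exit_var {hd : E → Bool → V} (hs : Simple hd) (hev : ∀ v, Even (deg hd v))
    {A : Finset V} {x : V} (hx : x ∉ A) {e0 : E} (he0 : e0 ∈ btw hd A x)
    (hy1 : frees hd A (oth hd x e0) = {e0}) {l : ℕ} (hl0 : 0 < l)
    (hL : ∀ e ∈ btw hd A x, e ≠ e0 → l ≤ (frees hd A (oth hd x e)).card) :
    (((btw hd A x).card : ℝ) - ∑ e ∈ (btw hd A x).erase e0,
        lossL (deg hd (oth hd x e)) (frees hd A (oth hd x e)).card - 2 / l) * (Om hd A).card ≤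
      ∑ ω ∈ Om hd A, ((∑ e ∈ btw hd A x, sg hd ω x e : ℤ) : ℝ) ^ 2 := by
  classical
  set T := (btw hd A x).erase e0 with hT
  have h1 := var_ge_sub hs hx hev (T := T) (erase_subset _ _)
  have h2 := exit_cov hs hx he0 hy1 hL
  rw [← hT] at h2
  obtain ⟨-, -, b0, hb0, -⟩ := oth_spec hx he0
  have hcard : ((btw hd A x).card : ℝ) = T.card + 1 := by
    rw [hT, card_erase_of_mem he0, Nat.cast_sub (Nat.one_le_iff_ne_zero.mpr
      (card_ne_zero_of_mem he0))]
    simp
  have hl1 : (0 : ℝ) < l := by exact_mod_cast hl0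
  have h3 : ∀ ω ∈ Om hd A, ((∑ e ∈ btw hd A x, sg hd ω x e : ℤ) : ℝ) ^ 2 =
      1 + 2 * ∑ e ∈ T, (sg hd ω x e0 : ℝ) * sg hd ω x e + (∑ e ∈ T, (sg hd ω x e : ℝ)) ^ 2 := by
    intro ω _
    rw [← add_sum_erase _ _ he0, ← hT, ← mul_sum]
    push_cast
    have h4 := sg_sq1 hb0 ω
    linear_combination h4
  rw [sum_congr rfl h3, sum_add_distrib, sum_add_distrib, sum_const, nsmul_eq_mul, mul_one,
    ← mul_sum, sum_comm]
  have h5 : -((Om hd A).card : ℝ) ≤
      l * ∑ e ∈ T, ∑ ω ∈ Om hd A, (sg hd ω x e0 : ℝ) * sg hd ω x e := by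
    exact_mod_cast h2
  have h6 : -((Om hd A).card : ℝ) / l ≤
      ∑ e ∈ T, ∑ ω ∈ Om hd A, (sg hd ω x e0 : ℝ) * sg hd ω x e := by
    rw [div_le_iff₀ hl1]
    linarith
  have h7 : ((Om hd A).card : ℝ) * (2 / l) = 2 * (((Om hd A).card : ℝ) / l) := by ring
  have h8 : -((Om hd A).card : ℝ) / l = -(((Om hd A).card : ℝ) / l) := by ring
  rw [h8] at h6
  rw [hcard]
  linarith

end MP_a3e05c_co.KL
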