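import Pool.Agent.Lib.MP_a3e05c_co.KL.StepM

/-!
# EULER: deletion of one vertex, with a lower bound for the variance as an input
-/

set_option linter.unusedSectionVars false

open Finset

namespace MP_a3e05c_co.KL

variable {V E : Type} [Fintype V] [DecidableEq V] [Fintype E] [DecidableEq E]

/-- **Key lemma**, the variance `v` is given. -/
theorem keyV {hd : E → Bool → V} (hl : NoLoop hd) {A : Finset V} {w : V} (hw : w ∉ A)
    (hev : Even (deg hd w)) {v : ℝ}
    (hv : v * (Om hd A).card ≤
      ∑ ω ∈ Om hd A, ((∑ e ∈ btw hd A w, sg hd ω w e : ℤ) : ℝ) ^ 2) :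
    ((Om hd (insert w A)).card : ℝ) ≤
      FM (btw hd A w).card (frees hd A w).card v * (Om hd A).card := by
  rcases (Om hd A).eq_empty_or_nonempty with hemp | hne
  · have h1 : Om hd (insert w A) = ∅ := by
      rw [eq_empty_iff_forall_notMem]
      intro ω hω
      have h2 : ω ∈ Om hd A := mem_Om.2 fun v hv => mem_Om.1 hω v (mem_insert_of_mem hv)
      rw [hemp] at h2
      exact notMem_empty _ h2
    rw [h1, hemp]
    simp
  · obtain ⟨s, hsf⟩ := ff_factor hl hw hne
    have hN : (0 : ℝ) < (Om hd A).card := by exact_mod_cast card_pos.2 hne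
    have hs0 : 0 ≤ ∑ i, s i := sum_nonneg fun i _ => (hsf.1 i).1
    rw [card_insert hl hw hev hsf, mul_comm]
    refine mul_le_mul_of_nonneg_right ?_ hN.le
    unfold FM FF
    refine pb_le_bn s hsf.1 _ _ ?_
    rw [var_eq hl hw hsf, mul_comm] at hv
    have hv2 := le_of_mul_le_mul_left hv hN
    by_cases hk : (btw hd A w).card / 2 = 0
    · have hk0 : ((((btw hd A w).card / 2 : ℕ)) : ℝ) = 0 := by rw [hk]; simp
      rw [hk0, zero_mul]
      exact hs0
    · have hkp : (0 : ℝ) < (((btw hd A w).card / 2 : ℕ) : ℝ) := by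
        exact_mod_cast Nat.pos_of_ne_zero hk
      rw [← mul_div_assoc, mul_comm (2 : ℝ), mul_div_mul_left _ _ hkp.ne',
        div_le_iff₀ (by norm_num : (0 : ℝ) < 2)]
      have h3 := max_le (a := v) (b := (((btw hd A w).card % 2 : ℕ) : ℝ))
        (c := (((btw hd A w).card % 2 : ℕ) : ℝ) + (∑ i, s i) * 2) (by linarith) (by linarith)
      linarith

omit [Fintype V] [DecidableEq E] in
/-- the edges between `w` and the rest -/
theorem btw_erase {hd : E → Bool → V} (hl : NoLoop hd) (A : Finset V) (w : V) :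
    btw hd (A.erase w) w = btw hd A w := by
  ext e
  rw [btw, btw, mem_filter, mem_filter]
  constructor
  · rintro ⟨-, b, h3, h4⟩
    exact ⟨mem_univ _, b, h3, mem_of_mem_erase h4⟩
  · rintro ⟨-, b, h3, h4⟩
    refine ⟨mem_univ _, b, h3, mem_erase.2 ⟨fun h5 => ?_, h4⟩⟩
    have h := hl e
    cases b
    · exact h (h5.trans h3.symm)
    · exact h (h3.trans h5.symm)

/-- **One step**, the variance `v` is given. -/
theorem PA_stepV {hd : E → Bool → V} (hl : NoLoop hd) {A : Finset V} {w : V} (hw : w ∈ A)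
    (hev : Even (deg hd w)) {v : ℝ}
    (hv : v * (Om hd (A.erase w)).card ≤
      ∑ ω ∈ Om hd (A.erase w), ((∑ e ∈ btw hd (A.erase w) w, sg hd ω w e : ℤ) : ℝ) ^ 2) :
    PA hd A ≤ FM (kk hd A w) (deg hd w - kk hd A w) v * PA hd (A.erase w) := by
  have hkk : (btw hd (A.erase w) w).card = kk hd A w := by
    rw [btw_erase hl]
    rfl
  have hfr : (frees hd (A.erase w) w).card = deg hd w - kk hd A w := by
    have h := deg_eq hl (A.erase w) w
    rw [hkk] at h
    omega
  have hkey := keyV hl (notMem_erase w A) hev hv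
  rw [insert_erase hw, hkk, hfr] at hkey
  unfold PA
  rw [← mul_div_assoc]
  exact div_le_div_of_nonneg_right hkey (by positivity)

end MP_a3e05c_co.KL
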