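import Pool.Agent.Lib.MP_a3e05c_co.EX.TwinCh
import Pool.Agent.Lib.MP_a3e05c_co.EX.StepV
import Pool.Agent.Lib.MP_a3e05c_co.EX.ExitVar
import Pool.Agent.Lib.MP_a3e05c_co.KL.FFG

/-!
# EULER, case C8: exits

`w` is full, `Q = N[w]`, `R` = the vertices of `Q` of the degree `D` of `w` (closed twins of `w`),
`U = Q \ R`, `q = #U`, and some `x ∈ U` has a neighbour outside `Q`.  If the first deletion is not
paid by the `q` neighbours of smaller degree, delete all of `R` and then `x`.
-/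

set_option linter.unusedSectionVars false

open Finset

namespace MP_a3e05c_co.KL

/-- first deletion: `q` neighbours of degree at most `D - 2` -/
noncomputable def s0 (D q : ℕ) : ℝ := AA D + ((D : ℝ) - q) * KL.hs D + q * KL.hs (D - 2)

/-- the loss at the exit vertex with one exit -/
noncomputable def zE (D q : ℕ) : ℝ :=
  2 / (((D : ℝ) + 1 - q) * (D + 2 - q)) + ((q : ℝ) - 4) ^ 2 / (((D : ℝ) - 3) ^ 2 * (D + 2 - q))

/-- the scalar facts used in the case C8 for a vertex of degree `D` -/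
structure ScE (D : ℕ) : Prop where
  anti : ∀ d, Even d → 2 ≤ d → d ≤ D → KL.hs D ≤ KL.hs d
  anti' : ∀ d, Even d → 2 ≤ d → d + 2 ≤ D → KL.hs (D - 2) ≤ KL.hs d
  nonneg : ∀ d k, Even d → 1 ≤ k → k < d → 0 ≤ phi d k - phi d (k - 1)
  base : ∀ d k, Even d → k < d → Real.log (bb (d / 2)) ≤ phi d k
  s5 : 0 ≤ AA D + (D : ℝ) * KL.hs (D - 2)
  ex1 : ∀ q, 4 ≤ q → q < D → s0 D q < 0 →
    0 ≤ s0 D q + KL.hs D + 1 / 2 * Real.log (1 - zE D q)
  ex2 : ∀ q e : ℕ, 2 ≤ e → e + 3 ≤ q → q < D → s0 D q < 0 →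
    0 ≤ s0 D q + e * KL.hs D - 1 / 2 * Real.log (1 + (e : ℝ) / (D - q))

private theorem C8_loss {d L D : ℝ} (hL : 1 ≤ L) (hd : 1 < d) (hdD : d ≤ D - 2) :
    (d - L) / ((d - 1) * L) ≤ (D - 2 - L) / ((D - 3) * L) := by
  have h1 : 0 < d - 1 := by linarith
  have h2 : 0 < D - 3 := by linarith
  have h3 : 0 < L := by linarith
  rw [div_le_div_iff₀ (by positivity) (by positivity)]
  have h4 : 0 ≤ (L - 1) * (D - 2 - d) := mul_nonneg (by linarith) (by linarith)
  nlinarith [mul_nonneg h3.le h4]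

private theorem C8_one {m q r D b : ℝ} (hm : 0 ≤ m) (hmq : m + 4 ≤ q) (hr : 1 ≤ r)
    (hD : D + 1 = q + r) (hb : b = (q - 4) / ((D - 3) * (r + 1))) :
    (m * b + 2 / (r + 1)) / (m + r) ≤
      2 / ((D + 1 - q) * (D + 2 - q)) + (q - 4) ^ 2 / ((D - 3) ^ 2 * (D + 2 - q)) := by
  have e1 : D + 1 - q = r := by linarith
  have e2 : D + 2 - q = r + 1 := by linarith
  have e3 : D - 3 = q - 4 + r := by linarith
  rw [e1, e2, hb, e3]
  have h0 : 0 ≤ q - 4 := by linarith
  have h1 : 0 < q - 4 + r := by linarith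
  have h2 : 0 < m + r := by linarith
  have h3 : 0 < r + 1 := by linarith
  have h4 : 0 < r := by linarith
  rw [add_div, add_comm]
  apply add_le_add
  · rw [div_div]
    apply div_le_div_of_nonneg_left (by norm_num) (by positivity)
    nlinarith
  · have h5 : m * ((q - 4) / ((q - 4 + r) * (r + 1))) / (m + r) =
        (q - 4) * (m / ((m + r) * ((q - 4 + r) * (r + 1)))) := by
      field_simp
    have h6 : (q - 4) ^ 2 / ((q - 4 + r) ^ 2 * (r + 1)) =
        (q - 4) * ((q - 4) / ((q - 4 + r) ^ 2 * (r + 1))) := by ring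
    rw [h5, h6]
    apply mul_le_mul_of_nonneg_left _ h0
    rw [div_le_div_iff₀ (by positivity) (by positivity)]
    have h7 : m * r ≤ (q - 4) * r := mul_le_mul_of_nonneg_right (by linarith) h4.le
    have h8 : m * (q - 4 + r) ≤ (q - 4) * (m + r) := by nlinarith
    have h9 : 0 ≤ (q - 4 + r) * (r + 1) := by positivity
    nlinarith [mul_le_mul_of_nonneg_right h8 h9]

private theorem C8_zlt {q r D : ℝ} (hq : 4 ≤ q) (hr : 2 ≤ r) (hD : D + 1 = q + r) :
    2 / ((D + 1 - q) * (D + 2 - q)) + (q - 4) ^ 2 / ((D - 3) ^ 2 * (D + 2 - q)) < 1 := by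
  have e1 : D + 1 - q = r := by linarith
  have e2 : D + 2 - q = r + 1 := by linarith
  have e3 : D - 3 = q - 4 + r := by linarith
  rw [e1, e2, e3]
  have h0 : 0 ≤ q - 4 := by linarith
  have h1 : 0 < q - 4 + r := by linarith
  have h2 : 0 < r := by linarith
  have h3 : 2 / (r * (r + 1)) ≤ 1 / 3 := by
    rw [div_le_div_iff₀ (by positivity) (by norm_num)]
    nlinarith
  have h4 : (q - 4) ^ 2 / ((q - 4 + r) ^ 2 * (r + 1)) ≤ 1 / 3 := by
    rw [div_le_div_iff₀ (by positivity) (by norm_num)]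
    have h5 : (q - 4) ^ 2 ≤ (q - 4 + r) ^ 2 := by
      apply pow_le_pow_left₀ <;> linarith
    have h6 : 0 ≤ (q - 4 + r) ^ 2 := by positivity
    nlinarith
  linarith

private theorem C8_two {m e q r D b : ℝ} (hm : 0 ≤ m) (he : 2 ≤ e) (hmq : m + e + 3 ≤ q)
    (hr : 2 ≤ r) (hD : D + 1 = q + r) (hb : b = (q - 4) / ((D - 3) * (r + 1))) :
    (m * b + e) / (m + e + r - 1) ≤ e / (r - 1 + e) := by
  have e3 : D - 3 = q - 4 + r := by linarith
  have h0 : 0 ≤ q - 4 := by linarith
  have h1 : 0 < q - 4 + r := by linarith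
  have h3 : 0 < r + 1 := by linarith
  have hb1 : b ≤ 1 / (r + 1) := by
    rw [hb, e3, div_le_div_iff₀ (by positivity) h3]
    nlinarith
  have hb2 : b * (r - 1 + e) ≤ e := by
    have h4 : b * (r - 1 + e) ≤ 1 / (r + 1) * (r - 1 + e) :=
      mul_le_mul_of_nonneg_right hb1 (by linarith)
    refine h4.trans ?_
    rw [one_div_mul_eq_div, div_le_iff₀ h3]
    nlinarith
  rw [div_le_div_iff₀ (by linarith) (by linarith)]
  nlinarith [mul_le_mul_of_nonneg_left hb2 hm]

private theorem C8_exp {c t u : ℝ} (hc : 0 < c) (ht : 0 < t) (hut : t ≤ u) :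
    c * (1 / Real.sqrt u) ≤ Real.exp (Real.log c - 1 / 2 * Real.log t) := by
  have hu : 0 < u := lt_of_lt_of_le ht hut
  rw [sub_eq_add_neg, Real.exp_add, Real.exp_log hc]
  apply mul_le_mul_of_nonneg_left _ hc.le
  rw [Real.exp_neg, one_div]
  apply inv_anti₀ (Real.exp_pos _)
  have h1 : Real.exp (1 / 2 * Real.log t) = Real.sqrt t := by
    rw [Real.sqrt_eq_rpow, Real.rpow_def_of_pos ht]
    congr 1
    ring
  rw [h1]
  exact Real.sqrt_le_sqrt hut

variable {V E : Type} [Fintype V] [DecidableEq V] [Fintype E] [DecidableEq E]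

/-- the free edges of a neighbour of `x` after the deletion of `x` -/
private theorem C8_frees {hd : E → Bool → V} (hs : Simple hd) {B : Finset V} {x u : V}
    (hx : x ∈ B) (hu : u ∈ nb hd B x) :
    (frees hd (B.erase x) u).card + kk hd B u = deg hd u + 1 := by
  have h1 := kk_erase hs hx u
  rw [if_pos (mem_nb.1 hu).2] at h1
  have h2 := deg_eq hs.1 (B.erase x) u
  have h3 : (btw hd (B.erase x) u).card = kk hd (B.erase x) u := rfl
  omega

/-- the exit vertex -/
private theorem C8_exit {hd : E → Bool → V} (hs : Simple hd) (hev : ∀ v, Even (deg hd v))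
    {B : Finset V} {x : V} (hx : x ∈ B) {Xi Xo : Finset V} (hnb : nb hd B x = Xi ∪ Xo)
    (hdis : Disjoint Xi Xo) (hXo : Xo.Nonempty) {D q r : ℕ} (hr : 2 ≤ r) (hD : D + 1 = q + r)
    (hdx : deg hd x = Xi.card + Xo.card + r) (hmq : Xi.card + Xo.card + 3 ≤ q)
    (hi : ∀ u ∈ Xi, kk hd B u + r = deg hd u ∧ deg hd u + 2 ≤ D)
    (ho : ∀ u ∈ Xo, kk hd B u = deg hd u ∧ deg hd u ≤ D) (hS : ScE D) (hs0 : s0 D q < 0) :
    PA hd B ≤ Real.exp (phi (deg hd x) (kk hd B x) + (∑ u ∈ nb hd B x, dphE hd B u) + s0 D q) *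
      PA hd (B.erase x) := by
  classical
  have hk : kk hd B x = Xi.card + Xo.card := by
    rw [← card_nb hs, hnb, card_union_of_disjoint hdis]
  have hkd : kk hd B x < deg hd x := by omega
  have he1 : 1 ≤ Xo.card := hXo.card_pos
  have hq4 : 4 ≤ q := by omega
  have hqD : q < D := by omega
  -- real numbers
  set m : ℝ := (Xi.card : ℝ) with hm
  set e : ℝ := (Xo.card : ℝ) with he
  have hm0 : 0 ≤ m := Nat.cast_nonneg _
  have hrr : (2 : ℝ) ≤ (r : ℝ) := by exact_mod_cast hr
  have hDR : (D : ℝ) + 1 = q + r := by exact_mod_cast hD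
  have hmqR : m + e + 3 ≤ (q : ℝ) := by
    rw [hm, he]
    exact_mod_cast hmq
  have hdxR : (deg hd x : ℝ) = m + e + r := by
    rw [hm, he, hdx]
    push_cast
    ring
  -- potentials
  have hpos : ∀ u ∈ nb hd B x, 1 ≤ kk hd B u := fun u hu => kk_posE hs hx hu
  have hdi : ∀ u ∈ Xi, 0 ≤ dphE hd B u := by
    intro u hu
    have h1 := hpos u (by rw [hnb]; exact mem_union_left _ hu)
    have h2 := hi u hu
    unfold dphE
    exact hS.nonneg _ _ (hev u) h1 (by omega)
  have hdo : ∀ u ∈ Xo, KL.hs D ≤ dphE hd B u := by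
    intro u hu
    have h1 := hpos u (by rw [hnb]; exact mem_union_right _ hu)
    obtain ⟨h2, h3⟩ := ho u hu
    rw [dphE_full h2]
    obtain ⟨c, hc⟩ := hev u
    exact hS.anti _ (hev u) (by omega) h3
  have hsum : e * KL.hs D ≤ ∑ u ∈ nb hd B x, dphE hd B u := by
    rw [hnb, sum_union hdis]
    have h1 := sum_nonneg hdi
    have h2 := card_nsmul_le_sum Xo _ _ hdo
    rw [nsmul_eq_mul] at h2
    rw [he]
    linarith
  have hbase := hS.base _ _ (hev x) hkd
  -- loss of the inner neighbours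
  set b : ℝ := ((q : ℝ) - 4) / (((D : ℝ) - 3) * (r + 1)) with hb
  have hbi : ∀ u ∈ Xi, ((deg hd u : ℝ) - (r + 1)) / (((deg hd u : ℝ) - 1) * (r + 1)) ≤ b ∧
      0 ≤ ((deg hd u : ℝ) - (r + 1)) / (((deg hd u : ℝ) - 1) * (r + 1)) := by
    intro u hu
    have h1 := hpos u (by rw [hnb]; exact mem_union_left _ hu)
    obtain ⟨h2, h3⟩ := hi u hu
    have h4 : (deg hd u : ℝ) ≤ D - 2 := by
      have h5 : ((deg hd u + 2 : ℕ) : ℝ) ≤ (D : ℝ) := by exact_mod_cast h3
      push_cast at h5
      linarith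
    have h6 : (r : ℝ) + 1 ≤ (deg hd u : ℝ) := by
      have h7 : ((r + 1 : ℕ) : ℝ) ≤ (deg hd u : ℝ) := by
        have : r + 1 ≤ deg hd u := by omega
        exact_mod_cast this
      push_cast at h7
      exact h7
    constructor
    · have h8 := C8_loss (d := (deg hd u : ℝ)) (L := (r : ℝ) + 1) (D := (D : ℝ)) (by linarith)
        (by linarith) h4
      have h9 : (D : ℝ) - 2 - (r + 1) = q - 4 := by linarith
      rw [h9] at h8
      exact h8
    · apply div_nonneg
      · linarith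
      · apply mul_nonneg
        · linarith
        · linarith
  by_cases hee : Xo.card = 1
  · -- one exit
    obtain ⟨y, hy⟩ := card_eq_one.1 hee
    have hyX : y ∈ Xo := by
      rw [hy]
      exact mem_singleton_self _
    have hynb : y ∈ nb hd B x := by
      rw [hnb]
      exact mem_union_right _ hyX
    obtain ⟨hyB, e0, b0, h1, h2⟩ := mem_nb.1 hynb
    have hyx : y ≠ x := Adj.ne hs (mem_nb.1 hynb).2
    have hxB : x ∉ B.erase x := notMem_erase x B
    have he0 : e0 ∈ btw hd (B.erase x) x := by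
      rw [btw, mem_filter]
      exact ⟨mem_univ _, b0, h1, by rw [h2]; exact mem_erase.2 ⟨hyx, hyB⟩⟩
    have hoth0 : oth hd x e0 = y := oth_eq hyx h1 h2
    have hfr0 : frees hd (B.erase x) (oth hd x e0) = {e0} := by
      have h3 := oth_free hxB he0
      have h4 := C8_frees hs hx hynb
      rw [(ho y hyX).1] at h4
      have h5 : (frees hd (B.erase x) (oth hd x e0)).card = 1 := by
        rw [hoth0]
        omega
      obtain ⟨a, ha⟩ := card_eq_one.1 h5
      rw [ha, mem_singleton] at h3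
      rw [ha, h3]
    have hin : ∀ e' ∈ btw hd (B.erase x) x, e' ≠ e0 → oth hd x e' ∈ Xi := by
      intro e' he' hne
      obtain ⟨h3, h4, b', h5, h6⟩ := oth_spec hxB he'
      have h7 : oth hd x e' ∈ nb hd B x := mem_nb.2 ⟨mem_of_mem_erase h3, e', b', h5, h6⟩
      rw [hnb, mem_union] at h7
      rcases h7 with h7 | h7
      · exact h7
      · rw [hy, mem_singleton] at h7
        exact absurd (oth_inj hs hxB he' he0 (h7.trans hoth0.symm)) hne
    have hfri : ∀ u ∈ Xi, (frees hd (B.erase x) u).card = r + 1 := by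
      intro u hu
      have h3 := C8_frees hs hx (u := u) (by rw [hnb]; exact mem_union_left _ hu)
      have h4 := (hi u hu).1
      omega
    have hvar := exit_var hs hev hxB he0 hfr0 (l := r + 1) (by omega) (by
      intro e' he' hne
      rw [hfri _ (hin e' he' hne)])
    have hPA := PA_stepV hs.1 hx (hev x) hvar
    set y1 : ℝ := ∑ e' ∈ (btw hd (B.erase x) x).erase e0,
      lossL (deg hd (oth hd x e')) (frees hd (B.erase x) (oth hd x e')).card +
        2 / ((r + 1 : ℕ) : ℝ) with hy1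
    have hbk : (btw hd (B.erase x) x).card = kk hd B x := by
      rw [btw_erase hs.1]
      rfl
    have hv : ((btw hd (B.erase x) x).card : ℝ) - ∑ e' ∈ (btw hd (B.erase x) x).erase e0,
        lossL (deg hd (oth hd x e')) (frees hd (B.erase x) (oth hd x e')).card -
        2 / ((r + 1 : ℕ) : ℝ) = (kk hd B x : ℝ) - y1 := by
      rw [hbk, hy1]
      ring
    rw [hv] at hPA
    have hcard : ((btw hd (B.erase x) x).erase e0).card = Xi.card := by
      rw [card_erase_of_mem he0, hbk]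
      omega
    have hloss : ∀ e' ∈ (btw hd (B.erase x) x).erase e0,
        lossL (deg hd (oth hd x e')) (frees hd (B.erase x) (oth hd x e')).card ≤ b ∧
        0 ≤ lossL (deg hd (oth hd x e')) (frees hd (B.erase x) (oth hd x e')).card := by
      intro e' he'
      have h3 := hin e' (mem_of_mem_erase he') (ne_of_mem_erase he')
      rw [hfri _ h3]
      have h4 := hbi _ h3
      unfold lossL
      push_cast
      exact h4
    have hy0 : 0 ≤ y1 := by
      rw [hy1]
      have h3 := sum_nonneg fun e' he' => (hloss e' he').2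
      have h4 : 0 ≤ 2 / ((r + 1 : ℕ) : ℝ) := by positivity
      linarith
    have hyle : y1 ≤ m * b + 2 / ((r : ℝ) + 1) := by
      rw [hy1]
      have h3 := sum_le_card_nsmul _ _ _ fun e' he' => (hloss e' he').1
      rw [hcard, nsmul_eq_mul] at h3
      rw [hm]
      push_cast
      linarith
    have he1R : e = 1 := by
      rw [he, hee]
      norm_num
    have hz := C8_one (m := m) (q := (q : ℝ)) (r := (r : ℝ)) (D := (D : ℝ)) (b := b) hm0
      (by linarith) (by linarith) hDR hb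
    have hzE : (m * b + 2 / ((r : ℝ) + 1)) / (m + r) ≤ zE D q := hz
    have hd1 : (deg hd x : ℝ) - 1 = m + r := by
      rw [hdxR, he1R]
      ring
    have hmr : 0 < m + (r : ℝ) := by linarith
    have hyz : y1 / ((deg hd x : ℝ) - 1) ≤ zE D q := by
      rw [hd1]
      exact (div_le_div_of_nonneg_right hyle hmr.le).trans hzE
    have hz1 : zE D q < 1 := C8_zlt (by exact_mod_cast hq4) hrr hDR
    have hyd : y1 < (deg hd x : ℝ) - 1 := by
      have h3 : y1 / ((deg hd x : ℝ) - 1) < 1 := lt_of_le_of_lt hyz hz1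
      rw [hd1] at h3 ⊢
      rwa [div_lt_one hmr] at h3
    have hFM := FM_le_G (hev x) hkd hy0 hyd
    have hex := C8_exp (c := bb (deg hd x / 2)) (t := 1 - zE D q)
      (u := 1 - y1 / ((deg hd x : ℝ) - 1)) (bb_pos _) (by linarith) (by linarith)
    have hsc := hS.ex1 q hq4 hqD hs0
    refine hPA.trans (mul_le_mul_of_nonneg_right (hFM.trans (hex.trans ?_)) (PA_nonneg _ _))
    rw [Real.exp_le_exp]
    rw [he1R, one_mul] at hsum
    linarith
  · -- at least two exits
    have he2 : 2 ≤ Xo.card := by omega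
    have he2R : (2 : ℝ) ≤ e := by
      rw [he]
      exact_mod_cast he2
    have hPA := PA_stepM hs hev hx
    set y2 : ℝ := ∑ u ∈ nb hd B x, rh (deg hd u) (kk hd B u) with hy2
    have hri : ∀ u ∈ Xi, rh (deg hd u) (kk hd B u) =
        ((deg hd u : ℝ) - (r + 1)) / (((deg hd u : ℝ) - 1) * (r + 1)) := by
      intro u hu
      obtain ⟨h2, h3⟩ := hi u hu
      have h4 : (kk hd B u : ℝ) = (deg hd u : ℝ) - r := by
        rw [← h2]
        push_cast
        ring
      unfold rh
      rw [h4]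
      congr 1
      · ring
      · congr 1
        ring
    have hro : ∀ u ∈ Xo, rh (deg hd u) (kk hd B u) = 1 := by
      intro u hu
      have h1 := hpos u (by rw [hnb]; exact mem_union_right _ hu)
      obtain ⟨h2, h3⟩ := ho u hu
      obtain ⟨c, hc⟩ := hev u
      have h4 : (2 : ℝ) ≤ (deg hd u : ℝ) := by
        have : 2 ≤ deg hd u := by omega
        exact_mod_cast this
      unfold rh
      rw [h2]
      have h5 : (deg hd u : ℝ) - (deg hd u : ℝ) + 1 = 1 := by ring
      rw [h5, mul_one]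
      exact div_self (by linarith)
    have hy2e : y2 = ∑ u ∈ Xi, ((deg hd u : ℝ) - (r + 1)) / (((deg hd u : ℝ) - 1) * (r + 1)) +
        e := by
      rw [hy2, hnb, sum_union hdis, sum_congr rfl hri, sum_congr rfl hro, sum_const, nsmul_eq_mul,
        mul_one]
    have hy0 : 0 ≤ y2 := by
      rw [hy2e]
      have h3 := sum_nonneg fun u hu => (hbi u hu).2
      linarith
    have hyle : y2 ≤ m * b + e := by
      rw [hy2e]
      have h3 := sum_le_card_nsmul _ _ _ fun u hu => (hbi u hu).1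
      rw [nsmul_eq_mul] at h3
      rw [hm]
      linarith
    have hz := C8_two (m := m) (e := e) (q := (q : ℝ)) (r := (r : ℝ)) (D := (D : ℝ)) (b := b) hm0
      he2R hmqR hrr hDR hb
    have hd1 : (deg hd x : ℝ) - 1 = m + e + r - 1 := by
      rw [hdxR]
    have hmr : 0 < m + e + (r : ℝ) - 1 := by linarith
    have hyz : y2 / ((deg hd x : ℝ) - 1) ≤ e / (r - 1 + e) := by
      rw [hd1]
      exact (div_le_div_of_nonneg_right hyle hmr.le).trans hz
    have hre : 0 < (r : ℝ) - 1 + e := by linarith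
    have hz1 : e / ((r : ℝ) - 1 + e) < 1 := by
      rw [div_lt_one hre]
      linarith
    have hyd : y2 < (deg hd x : ℝ) - 1 := by
      have h3 : y2 / ((deg hd x : ℝ) - 1) < 1 := lt_of_le_of_lt hyz hz1
      rw [hd1] at h3 ⊢
      rwa [div_lt_one hmr] at h3
    have hFM := FM_le_G (hev x) hkd hy0 hyd
    have hex := C8_exp (c := bb (deg hd x / 2)) (t := 1 - e / ((r : ℝ) - 1 + e))
      (u := 1 - y2 / ((deg hd x : ℝ) - 1)) (bb_pos _) (by linarith) (by linarith)
    have hsc := hS.ex2 q Xo.card he2 (by omega) hqD hs0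
    have hlog : Real.log (1 - e / ((r : ℝ) - 1 + e)) =
        -Real.log (1 + (Xo.card : ℝ) / ((D : ℝ) - q)) := by
      have h3 : (D : ℝ) - q = r - 1 := by linarith
      rw [← Real.log_inv, h3, ← he]
      congr 1
      have h4 : (r : ℝ) - 1 ≠ 0 := by linarith
      have h5 : (r : ℝ) - 1 + e ≠ 0 := hre.ne'
      field_simp
      ring
    rw [hlog] at hex
    refine hPA.trans (mul_le_mul_of_nonneg_right (hFM.trans (hex.trans ?_)) (PA_nonneg _ _))
    rw [Real.exp_le_exp]
    rw [← he] at hsc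
    linarith

/-- **C8.** -/
theorem case_C8 {hd : E → Bool → V} (hs : Simple hd) (hev : ∀ v, Even (deg hd v))
    (hS1 : StepOne hd) {A : Finset V} {w : V} (hw : w ∈ A) (hfull : kk hd A w = deg hd w)
    (hS' : 4 ≤ deg hd w → ScE (deg hd w))
    (hoth : ∀ u ∈ nb hd A w, kk hd A u = deg hd u ∧ deg hd u ≤ deg hd w)
    (htw : ∀ u ∈ nb hd A w, deg hd u = deg hd w →
      insert u (nb hd A u) = insert w (nb hd A w))
    {x y : V} (hx : x ∈ nb hd A w) (hy : y ∈ nb hd A x) (hyQ : y ∉ insert w (nb hd A w))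
    (hfar : ∀ z ∈ nb hd A x, kk hd A z = deg hd z ∧ deg hd z ≤ deg hd w) : Red hd A := by
  classical
  set D := deg hd w with hD
  set Q := insert w (nb hd A w) with hQ
  set R := Q.filter (fun u => deg hd u = D) with hR
  have hwQ : w ∈ Q := mem_insert_self _ _
  have hwR : w ∈ R := mem_filter.2 ⟨hwQ, rfl⟩
  have hQA : Q ⊆ A := by
    intro u hu
    rcases mem_insert.1 hu with rfl | h1
    · exact hw
    · exact (mem_nb.1 h1).1
  have hRQ : R ⊆ Q := filter_subset _ _
  have hwn : w ∉ nb hd A w := fun h => Adj.ne hs (mem_nb.1 h).2 rfl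
  have hNcard : (nb hd A w).card = D := by rw [card_nb hs, hfull]
  have hQcard : Q.card = D + 1 := by rw [hQ, card_insert_of_notMem hwn, hNcard]
  have hQfull : ∀ u ∈ Q, kk hd A u = deg hd u ∧ deg hd u ≤ D := by
    intro u hu
    rcases mem_insert.1 hu with rfl | h1
    · exact ⟨hfull, le_rfl⟩
    · exact hoth u h1
  -- members of `R`
  have hRnb : ∀ v ∈ R, insert v (nb hd A v) = Q := by
    intro v hv
    obtain ⟨h1, h2⟩ := mem_filter.1 hv
    rcases mem_insert.1 h1 with rfl | h3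
    · rfl
    · exact htw v h3 h2
  have hRadj : ∀ v ∈ R, ∀ u ∈ Q, u ≠ v → Adj hd v u := by
    intro v hv u hu hne
    rw [← hRnb v hv] at hu
    rcases mem_insert.1 hu with h1 | h1
    · exact absurd h1 hne
    · exact (mem_nb.1 h1).2
  have hRsub : ∀ v ∈ R, nb hd A v ⊆ Q := by
    intro v hv
    rw [← hRnb v hv]
    exact subset_insert _ _
  -- `S ⊆ R` consists of neighbours of `u ∈ Q \ S`
  have hSnb : ∀ S ⊆ R, ∀ u ∈ Q, u ∉ S → S ⊆ nb hd A u := by
    intro S hSR u hu huS v hv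
    have h1 := hSR hv
    refine mem_nb.2 ⟨hQA (hRQ h1), ?_⟩
    exact (hRadj v h1 u hu (fun h => huS (h ▸ hv))).symm
  -- the set `U`
  set U := Q \ R with hU
  set q := U.card with hq
  set r := R.card with hr
  have hqr : D + 1 = q + r := by
    rw [hq, hr, hU, card_sdiff_add_card_eq_card hRQ, hQcard]
  have hUdeg : ∀ u ∈ U, deg hd u + 2 ≤ D ∧ 2 ≤ deg hd u ∧ u ∈ nb hd A w := by
    intro u hu
    obtain ⟨h1, h2⟩ := mem_sdiff.1 hu
    have h3 : deg hd u ≠ D := fun h => h2 (mem_filter.2 ⟨h1, h⟩)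
    obtain ⟨h4, h5⟩ := hQfull u h1
    have h6 : u ∈ nb hd A w := by
      rcases mem_insert.1 h1 with rfl | h7
      · exact absurd rfl h3
      · exact h7
    have h7 := kk_posE hs hw h6
    obtain ⟨c, hc⟩ := hev u
    obtain ⟨c', hc'⟩ := hev w
    refine ⟨?_, ?_, h6⟩
    · omega
    · omega
  -- the vertex `x`
  have hxQ : x ∈ Q := mem_insert_of_mem hx
  have hxR : x ∉ R := by
    intro h
    exact hyQ (hRsub x h hy)
  have hxU : x ∈ U := mem_sdiff.2 ⟨hxQ, hxR⟩
  obtain ⟨hx2, hx3, -⟩ := hUdeg x hxU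
  set Xo := nb hd A x \ Q with hXo
  set Xi := (nb hd A x ∩ Q) \ R with hXi
  have hRx : R ⊆ nb hd A x := hSnb R subset_rfl x hxQ hxR
  have hBnb : nb hd (A \ R) x = Xi ∪ Xo := by
    rw [nb_sdiff]
    ext z
    rw [mem_union, hXi, hXo, mem_sdiff, mem_sdiff, mem_sdiff, mem_inter]
    constructor
    · rintro ⟨h1, h2⟩
      by_cases h3 : z ∈ Q
      · exact Or.inl ⟨⟨h1, h3⟩, h2⟩
      · exact Or.inr ⟨h1, h3⟩
    · rintro (⟨⟨h1, h3⟩, h2⟩ | ⟨h1, h3⟩)
      · exact ⟨h1, h2⟩
      · exact ⟨h1, fun h4 => h3 (hRQ h4)⟩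
  have hdis : Disjoint Xi Xo := by
    rw [disjoint_left]
    intro z h1 h2
    exact (mem_sdiff.1 h2).2 (mem_inter.1 (mem_sdiff.1 h1).1).2
  have hXoy : y ∈ Xo := mem_sdiff.2 ⟨hy, hyQ⟩
  have hkx : kk hd (A \ R) x + r = deg hd x := by
    rw [kk_sdiff_sub hs hRx, (hQfull x hxQ).1]
  have hkx2 : kk hd (A \ R) x = Xi.card + Xo.card := by
    rw [← card_nb hs, hBnb, card_union_of_disjoint hdis]
  have hXo1 : 1 ≤ Xo.card := card_pos.2 ⟨y, hXoy⟩
  have hmq : Xi.card + Xo.card + 3 ≤ q := by omega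
  have hr1 : 1 ≤ r := card_pos.2 ⟨w, hwR⟩
  have hS : ScE D := hS' (by omega)
  -- the first deletion
  have hN : nb hd A w = R.erase w ∪ U := by
    ext u
    rw [mem_union, mem_erase, hU, mem_sdiff]
    constructor
    · intro h1
      have h2 : u ∈ Q := mem_insert_of_mem h1
      have h3 : u ≠ w := fun h => hwn (h ▸ h1)
      by_cases h4 : u ∈ R
      · exact Or.inl ⟨h3, h4⟩
      · exact Or.inr ⟨h2, h4⟩
    · rintro (⟨h1, h2⟩ | ⟨h1, h2⟩)
      · rcases mem_insert.1 (hRQ h2) with h3 | h3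
        · exact absurd h3 h1
        · exact h3
      · rcases mem_insert.1 h1 with h3 | h3
        · exact absurd (h3 ▸ hwR) h2
        · exact h3
  have hdisN : Disjoint (R.erase w) U := by
    rw [disjoint_left]
    intro u h1 h2
    exact (mem_sdiff.1 h2).2 (mem_of_mem_erase h1)
  have hfirst : s0 D q ≤ AA D + ∑ u ∈ nb hd A w, dphE hd A u := by
    rw [hN, sum_union hdisN]
    have h1 : (R.erase w).card • KL.hs D ≤ ∑ u ∈ R.erase w, dphE hd A u := by
      refine card_nsmul_le_sum _ _ _ fun u hu => ?_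
      have h2 := mem_of_mem_erase hu
      rw [dphE_full (hQfull u (hRQ h2)).1, (mem_filter.1 h2).2]
    have h2 : U.card • KL.hs (D - 2) ≤ ∑ u ∈ U, dphE hd A u := by
      refine card_nsmul_le_sum _ _ _ fun u hu => ?_
      obtain ⟨h3, h4, h5⟩ := hUdeg u hu
      rw [dphE_full (hQfull u (mem_sdiff.1 hu).1).1]
      exact hS.anti' _ (hev u) h4 h3
    have h3 : (((R.erase w).card : ℕ) : ℝ) = (D : ℝ) - q := by
      have h4 : (R.erase w).card + q = D := by
        rw [card_erase_of_mem hwR]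
        have := card_pos.2 ⟨w, hwR⟩
        omega
      rw [← h4]
      push_cast
      ring
    rw [nsmul_eq_mul, h3] at h1
    rw [nsmul_eq_mul] at h2
    unfold s0
    linarith
  have hfree := Sl.free hs hw
  rw [hfull, phi_full, gain_dphE] at hfree
  have hfree2 := hfree.mono hfirst
  by_cases hs0 : 0 ≤ s0 D q
  · exact hfree2.red hs0 (erase_ne hw)
  push Not at hs0
  -- `r ≥ 2`
  have hr2 : 2 ≤ r := by
    by_contra h
    have h1 : 1 ≤ r := card_pos.2 ⟨w, hwR⟩
    have h2 : q = D := by omega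
    have h3 := hS.s5
    have h4 : s0 D q = AA D + (D : ℝ) * KL.hs (D - 2) := by
      unfold s0
      rw [h2]
      ring
    rw [h4] at hs0
    linarith
  -- the chain through `R`
  have hAR : A.erase w \ R.erase w = A \ R := by
    ext z
    rw [mem_sdiff, mem_sdiff, mem_erase, mem_erase]
    constructor
    · rintro ⟨⟨h1, h2⟩, h3⟩
      exact ⟨h2, fun h4 => h3 ⟨h1, h4⟩⟩
    · rintro ⟨h1, h2⟩
      exact ⟨⟨fun h3 => h2 (h3 ▸ hwR), h1⟩, fun h3 => h2 h3.2⟩
  have hchain := chain_steps hS1 (B := A.erase w) (R.erase w)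
    (fun z hz => mem_erase.2 ⟨ne_of_mem_erase hz, hQA (hRQ (mem_of_mem_erase hz))⟩) (by
    intro T' hT' v hv hvT
    have h1 : A.erase w \ T' = A \ insert w T' := by
      ext z
      rw [mem_sdiff, mem_sdiff, mem_erase, mem_insert]
      tauto
    rw [h1]
    have hSR : insert w T' ⊆ R := by
      intro z hz
      rcases mem_insert.1 hz with rfl | h2
      · exact hwR
      · exact mem_of_mem_erase (hT' h2)
    have hvR := mem_of_mem_erase hv
    have hvS : v ∉ insert w T' := by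
      intro h2
      rcases mem_insert.1 h2 with h3 | h3
      · exact ne_of_mem_erase hv h3
      · exact hvT h3
    have hc : 0 < (insert w T').card := card_pos.2 ⟨w, mem_insert_self _ _⟩
    have h2 := kk_sdiff_sub hs (hSnb _ hSR v (hRQ hvR) hvS)
    rw [(hQfull v (hRQ hvR)).1, (mem_filter.1 hvR).2] at h2
    constructor
    · rw [(mem_filter.1 hvR).2]
      omega
    · intro u hu
      rw [nb_sdiff, mem_sdiff] at hu
      have h3 := kk_sdiff_sub hs (hSnb _ hSR u (hRsub v hvR hu.1) hu.2)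
      have h4 := hQfull u (hRsub v hvR hu.1)
      omega)
  rw [hAR] at hchain
  -- the exit vertex
  have hxB : x ∈ A \ R := mem_sdiff.2 ⟨hQA hxQ, hxR⟩
  have hexit := C8_exit hs hev hxB hBnb hdis ⟨y, hXoy⟩ hr2 hqr (by omega) hmq
    (by
      intro u hu
      obtain ⟨h1, h2⟩ := mem_sdiff.1 hu
      have h3 := (mem_inter.1 h1).2
      rw [kk_sdiff_sub hs (hSnb R subset_rfl u h3 h2), (hQfull u h3).1]
      exact ⟨rfl, (hUdeg u (mem_sdiff.2 ⟨h3, h2⟩)).1⟩)
    (by
      intro u hu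
      obtain ⟨h1, h2⟩ := mem_sdiff.1 hu
      rw [kk_sdiff_disj hs]
      · exact hfar u h1
      · intro v hv h3
        exact h2 (hRsub v hv (mem_nb.2 ⟨(mem_nb.1 h1).1, h3.symm⟩)))
    hS hs0
  rw [← gain_dphE] at hexit
  have hsl := (hfree2.trans hchain).trans (Sl.erase hs hxB hexit)
  refine hsl.red (by linarith) ?_
  intro h
  rw [← h] at hw
  exact (mem_sdiff.1 (mem_of_mem_erase hw)).2 hwR

/-- **C8**, in the form of the final induction. -/
theorem red_C8_of {hd : E → Bool → V} (hs : Simple hd) (hev : ∀ v, Even (deg hd v))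
    (hS1 : StepOne hd) (hsc : ∀ D : ℕ, Even D → 4 ≤ D → ScE D) {A : Finset V} {D : ℕ}
    (hT : Top hd A D) {w u y : V} (hw : Twins hd A D w) (hu : u ∈ nb hd A w)
    (hy : y ∈ nb hd A u) (hyQ : y ∉ NB hd A w) : Red hd A := by
  have hle : ∀ z ∈ A, Full hd A z → deg hd z ≤ deg hd w := by
    intro z hz hf
    have h1 := hT.le z hz
    rw [hf] at h1
    rw [hw.deg_eq]
    exact h1
  refine case_C8 hs hev hS1 hw.mem hw.full (fun h => hsc _ (hev w) h) ?_ ?_ hu hy hyQ ?_
  · intro z hz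
    exact ⟨hw.nb_full z hz, hle z (mem_nb.1 hz).1 (hw.nb_full z hz)⟩
  · intro z hz hzD
    rw [hw.deg_eq] at hzD
    exact hw.twin z hz hzD
  · intro z hz
    exact ⟨hw.nb2_full u hu z hz, hle z (mem_nb.1 hz).1 (hw.nb2_full u hu z hz)⟩

end MP_a3e05c_co.KL
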