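import Pool.Agent.Lib.MP_a3e05c_co.EX.Case8
import Pool.Agent.Lib.MP_a3e05c_co.S1.Hs
import Pool.Agent.Lib.MP_a3e05c_co.CA.Chain2

/-!
# EULER, exits: the scalar inequalities for `D ≤ 20`

The table of the block CA gives `AA d` and `Ud d` for `d ≤ 22` with ten digits; the inequalities
are then checked by the kernel.
-/

set_option linter.unusedSectionVars false

open Finset Real

namespace MP_a3e05c_co.KL

/-- lower bound of `10 ^ 10 * D * hs D` -/
def etE (D : ℕ) : ℤ := (CA.upT D : ℤ) - D * CA.alT D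

/-- lower bound of `10 ^ 10 * D * (D - 2) * s0 D q` -/
def siE (D q : ℕ) : ℤ :=
  -(CA.alT D : ℤ) * D * ((D : ℤ) - 2) + ((D : ℤ) - q) * ((D : ℤ) - 2) * etE D +
    q * D * etE (D - 2)

/-- numerator of `zE D q` -/
def z1E (D q : ℕ) : ℤ := 2 * ((D : ℤ) - 3) ^ 2 + ((D : ℤ) + 1 - q) * ((q : ℤ) - 4) ^ 2

/-- denominator of `zE D q` -/
def z2E (D q : ℕ) : ℤ := ((D : ℤ) + 1 - q) * ((D : ℤ) + 2 - q) * ((D : ℤ) - 3) ^ 2

/-- the check for one exit -/
def ChkE1 (D q : ℕ) : Prop :=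
  0 ≤ siE D q ∨ (z1E D q < z2E D q ∧
    0 ≤ 2 * (z2E D q - z1E D q) * (siE D q + ((D : ℤ) - 2) * etE D) -
      z1E D q * D * ((D : ℤ) - 2) * 10 ^ 10)

/-- the check for `e` exits -/
def ChkE2 (D q e : ℕ) : Prop :=
  0 ≤ siE D q ∨
    0 ≤ 4 * ((D : ℤ) - q) * ((D : ℤ) - q + e) * (siE D q + e * ((D : ℤ) - 2) * etE D) -
      e * (2 * ((D : ℤ) - q) + e) * D * ((D : ℤ) - 2) * 10 ^ 10

instance (D q : ℕ) : Decidable (ChkE1 D q) := by
  unfold ChkE1
  infer_instance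

instance (D q e : ℕ) : Decidable (ChkE2 D q e) := by
  unfold ChkE2
  infer_instance

theorem chkE1_all : ∀ D ∈ List.range 21, 6 ≤ D → D % 2 = 0 → ∀ q ∈ List.range D, 4 ≤ q →
    ChkE1 D q := by
  decide +kernel

theorem chkE2_all : ∀ D ∈ List.range 21, 6 ≤ D → D % 2 = 0 → ∀ q ∈ List.range D, 4 ≤ q →
    ∀ e ∈ List.range q, 2 ≤ e → e + 3 ≤ q → ChkE2 D q e := by
  decide +kernel

private theorem ScS_phi {d : ℕ} (h2 : 2 ≤ d) : phi d (d - 1) = NCS.Ud d / d := by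
  have h1 := TT_eq_Ud h2
  have hd0 : (0 : ℝ) < (d : ℝ) := by
    have : 0 < d := by omega
    exact_mod_cast this
  have h3 : ((d : ℝ) + 1) * AA d = Real.log (PK (d + 1)) := by
    unfold AA
    field_simp
  unfold TT at h1
  unfold phi
  rw [if_pos (by omega)]
  have e1 : d - 1 + 1 = d := by omega
  have e2 : ((d - 1 : ℕ) : ℝ) + 1 = d := by
    rw [Nat.cast_sub (by omega)]
    push_cast
    ring
  rw [e1, e2]
  congr 1
  linarith

/-- the table value of `hs` -/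
theorem etE_le {d : ℕ} (hd : Even d) (h2 : 2 ≤ d) (h22 : d ≤ 22) :
    (etE d : ℝ) ≤ 10 ^ 10 * ((d : ℝ) * KL.hs d) := by
  have hr := CA.row_all d hd h2 h22
  have hd0 : (0 : ℝ) < (d : ℝ) := by
    have : 0 < d := by omega
    exact_mod_cast this
  have h1 := mul_le_mul_of_nonneg_left hr.a hd0.le
  have h3 := hr.u
  have h4 : (d : ℝ) * KL.hs d = d * AA d - NCS.Ud d := by
    unfold KL.hs
    rw [ScS_phi h2]
    field_simp
  rw [h4]
  unfold etE
  push_cast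
  rw [neg_div, mul_neg] at h1
  rw [neg_div] at h3
  have h5 : (d : ℝ) * ((CA.alT d : ℝ) / 10 ^ 10) = d * CA.alT d / 10 ^ 10 := by ring
  rw [h5] at h1
  have h6 : (d * CA.alT d / 10 ^ 10 : ℝ) * 10 ^ 10 = d * CA.alT d := by field_simp
  have h7 : ((CA.upT d : ℝ) / 10 ^ 10 : ℝ) * 10 ^ 10 = CA.upT d := by field_simp
  nlinarith

/-- the table value of `s0` -/
theorem siE_le {D q : ℕ} (hd : Even D) (h6 : 6 ≤ D) (h22 : D ≤ 22) (hq : q ≤ D) :
    (siE D q : ℝ) ≤ (D : ℝ) * ((D : ℝ) - 2) * 10 ^ 10 * s0 D q := by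
  have hD6 : (6 : ℝ) ≤ (D : ℝ) := by exact_mod_cast h6
  have hqR : (q : ℝ) ≤ (D : ℝ) := by exact_mod_cast hq
  have hq0 : (0 : ℝ) ≤ (q : ℝ) := Nat.cast_nonneg q
  have h1 := etE_le hd (by omega) h22
  have hd2 : Even (D - 2) := by
    obtain ⟨m, hm⟩ := hd
    exact ⟨m - 1, by omega⟩
  have h2 := etE_le hd2 (by omega) (by omega)
  have e2 : ((D - 2 : ℕ) : ℝ) = (D : ℝ) - 2 := by
    rw [Nat.cast_sub (by omega)]
    norm_num
  rw [e2] at h2
  have h3 := (CA.row_all D hd (by omega) h22).a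
  have h3' : -(CA.alT D : ℝ) ≤ 10 ^ 10 * AA D := by
    rw [div_le_iff₀ (by norm_num)] at h3
    linarith
  have h4 := mul_le_mul_of_nonneg_left h3'
    (mul_nonneg (by linarith : (0 : ℝ) ≤ (D : ℝ)) (by linarith : (0 : ℝ) ≤ (D : ℝ) - 2))
  have h5 := mul_le_mul_of_nonneg_left h1
    (mul_nonneg (by linarith : (0 : ℝ) ≤ (D : ℝ) - q) (by linarith : (0 : ℝ) ≤ (D : ℝ) - 2))
  have h7 := mul_le_mul_of_nonneg_left h2
    (mul_nonneg hq0 (by linarith : (0 : ℝ) ≤ (D : ℝ)))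
  unfold siE s0
  push_cast
  have e3 : (D : ℝ) * ((D : ℝ) - 2) * 10 ^ 10 *
      (AA D + ((D : ℝ) - q) * KL.hs D + q * KL.hs (D - 2)) =
      (D : ℝ) * ((D : ℝ) - 2) * (10 ^ 10 * AA D) +
      ((D : ℝ) - q) * ((D : ℝ) - 2) * (10 ^ 10 * (D * KL.hs D)) +
      q * D * (10 ^ 10 * (((D : ℝ) - 2) * KL.hs (D - 2))) := by ring
  rw [e3]
  linarith

theorem ScS_ex1 {D q : ℕ} (hD : Even D) (h20 : D ≤ 20) (hq4 : 4 ≤ q) (hq : q < D)
    (hs : s0 D q < 0) : 0 ≤ s0 D q + KL.hs D + 1 / 2 * log (1 - zE D q) := by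
  have h6 : 6 ≤ D := by
    obtain ⟨m, hm⟩ := hD
    omega
  have hD6 : (6 : ℝ) ≤ (D : ℝ) := by exact_mod_cast h6
  have hqR : (q : ℝ) + 1 ≤ (D : ℝ) := by exact_mod_cast hq
  have h1 := siE_le hD h6 (by omega) hq.le
  have h2 := etE_le hD (by omega) (by omega)
  have hP : (0 : ℝ) < (D : ℝ) * ((D : ℝ) - 2) * 10 ^ 10 := by
    have : (0 : ℝ) < (D : ℝ) - 2 := by linarith
    positivity
  rcases chkE1_all D (List.mem_range.2 (by omega)) h6 (Nat.even_iff.1 hD) q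
    (List.mem_range.2 hq) hq4 with h | ⟨hz, h⟩
  · exfalso
    have h' : (0 : ℝ) ≤ (siE D q : ℝ) := by exact_mod_cast h
    have := mul_neg_of_pos_of_neg hP hs
    linarith
  · have hz' : (z1E D q : ℝ) < (z2E D q : ℝ) := by exact_mod_cast hz
    have h' : (0 : ℝ) ≤ 2 * ((z2E D q : ℝ) - z1E D q) * (siE D q + ((D : ℝ) - 2) * etE D) -
      z1E D q * D * ((D : ℝ) - 2) * 10 ^ 10 := by exact_mod_cast h
    have hr : (0 : ℝ) < (D : ℝ) + 1 - q := by linarith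
    have hr2 : (0 : ℝ) < (D : ℝ) + 2 - q := by linarith
    have hD3 : (0 : ℝ) < (D : ℝ) - 3 := by linarith
    have e1 : (z1E D q : ℝ) = 2 * ((D : ℝ) - 3) ^ 2 + ((D : ℝ) + 1 - q) * ((q : ℝ) - 4) ^ 2 := by
      unfold z1E
      push_cast
      ring
    have e2 : (z2E D q : ℝ) = ((D : ℝ) + 1 - q) * ((D : ℝ) + 2 - q) * ((D : ℝ) - 3) ^ 2 := by
      unfold z2E
      push_cast
      ring
    have hz2 : (0 : ℝ) < (z2E D q : ℝ) := by
      rw [e2]
      positivity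
    have e3 : zE D q = (z1E D q : ℝ) / z2E D q := by
      rw [e1, e2]
      unfold zE
      field_simp
    have hW : (0 : ℝ) < (z2E D q : ℝ) - z1E D q := by linarith
    have h3 : 1 - zE D q = ((z2E D q : ℝ) - z1E D q) / z2E D q := by
      rw [e3]
      field_simp
    have h4 := Real.one_sub_inv_le_log_of_pos (x := 1 - zE D q) (by rw [h3]; positivity)
    have h5 : 1 - (1 - zE D q)⁻¹ = -((z1E D q : ℝ) / ((z2E D q : ℝ) - z1E D q)) := by
      rw [h3, inv_div]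
      field_simp
      ring
    rw [h5] at h4
    have h7 : (siE D q + ((D : ℝ) - 2) * etE D) ≤
        (D : ℝ) * ((D : ℝ) - 2) * 10 ^ 10 * (s0 D q + KL.hs D) := by
      have := mul_le_mul_of_nonneg_left h2 (by linarith : (0 : ℝ) ≤ (D : ℝ) - 2)
      linarith
    have h8 : (z1E D q : ℝ) / ((z2E D q : ℝ) - z1E D q) ≤ 2 * (s0 D q + KL.hs D) := by
      rw [div_le_iff₀ hW]
      have h9 := mul_le_mul_of_nonneg_left h7 hW.le
      have h10 : (D : ℝ) * ((D : ℝ) - 2) * 10 ^ 10 * (z1E D q : ℝ) ≤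
          (D : ℝ) * ((D : ℝ) - 2) * 10 ^ 10 *
            (2 * (s0 D q + KL.hs D) * ((z2E D q : ℝ) - z1E D q)) := by linarith
      exact le_of_mul_le_mul_left h10 hP
    linarith

private theorem ScS_log {y : ℝ} (hy : 0 ≤ y) : log (1 + y) ≤ y * (2 + y) / (2 * (1 + y)) := by
  have h3 := Real.self_le_sinh_iff.2 (log_nonneg (by linarith : 1 ≤ 1 + y))
  rw [Real.sinh_eq, exp_neg, exp_log (by positivity)] at h3
  have e1 : (1 + y - (1 + y)⁻¹) / 2 = y * (2 + y) / (2 * (1 + y)) := by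
    field_simp
    ring
  rwa [e1] at h3

theorem ScS_ex2 {D q e : ℕ} (hD : Even D) (h20 : D ≤ 20) (he : 2 ≤ e) (heq : e + 3 ≤ q)
    (hq : q < D) (hs : s0 D q < 0) :
    0 ≤ s0 D q + e * KL.hs D - 1 / 2 * log (1 + (e : ℝ) / (D - q)) := by
  have h6 : 6 ≤ D := by
    obtain ⟨m, hm⟩ := hD
    omega
  have hD6 : (6 : ℝ) ≤ (D : ℝ) := by exact_mod_cast h6
  have hqR : (q : ℝ) + 1 ≤ (D : ℝ) := by exact_mod_cast hq
  have heR : (2 : ℝ) ≤ (e : ℝ) := by exact_mod_cast he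
  have h1 := siE_le hD h6 (by omega) hq.le
  have h2 := etE_le hD (by omega) (by omega)
  have hP : (0 : ℝ) < (D : ℝ) * ((D : ℝ) - 2) * 10 ^ 10 := by
    have : (0 : ℝ) < (D : ℝ) - 2 := by linarith
    positivity
  rcases chkE2_all D (List.mem_range.2 (by omega)) h6 (Nat.even_iff.1 hD) q
    (List.mem_range.2 hq) (by omega) e (List.mem_range.2 (by omega)) he heq with h | h
  · exfalso
    have h' : (0 : ℝ) ≤ (siE D q : ℝ) := by exact_mod_cast h
    have := mul_neg_of_pos_of_neg hP hs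
    linarith
  · have h' : (0 : ℝ) ≤ 4 * ((D : ℝ) - q) * ((D : ℝ) - q + e) *
        (siE D q + e * ((D : ℝ) - 2) * etE D) -
      e * (2 * ((D : ℝ) - q) + e) * D * ((D : ℝ) - 2) * 10 ^ 10 := by exact_mod_cast h
    obtain ⟨f, hf⟩ : ∃ f : ℝ, f = (D : ℝ) - q := ⟨_, rfl⟩
    rw [← hf] at h' ⊢
    have hf0 : 0 < f := by linarith
    have he0 : (0 : ℝ) < (e : ℝ) := by linarith
    have h3 := ScS_log (y := (e : ℝ) / f) (by positivity)
    have e1 : (e : ℝ) / f * (2 + e / f) / (2 * (1 + e / f)) =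
        e * (2 * f + e) / (2 * f * (f + e)) := by
      field_simp
    rw [e1] at h3
    have h7 : (siE D q + e * ((D : ℝ) - 2) * etE D) ≤
        (D : ℝ) * ((D : ℝ) - 2) * 10 ^ 10 * (s0 D q + e * KL.hs D) := by
      have := mul_le_mul_of_nonneg_left h2
        (mul_nonneg he0.le (by linarith : (0 : ℝ) ≤ (D : ℝ) - 2))
      linarith
    have h8 : e * (2 * f + e) / (2 * f * (f + e)) ≤ 2 * (s0 D q + e * KL.hs D) := by
      rw [div_le_iff₀ (by positivity)]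
      have h9 := mul_le_mul_of_nonneg_left h7 (by positivity : 0 ≤ 4 * f * (f + e))
      have h10 : (D : ℝ) * ((D : ℝ) - 2) * 10 ^ 10 * (e * (2 * f + e)) ≤
          (D : ℝ) * ((D : ℝ) - 2) * 10 ^ 10 *
            (2 * (s0 D q + e * KL.hs D) * (2 * f * (f + e))) := by linarith
      exact le_of_mul_le_mul_left h10 hP
    linarith

end MP_a3e05c_co.KL
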