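import Pool.Agent.Lib.MP_a3e05c_co.EX.ScLarge
import Pool.Agent.Lib.MP_a3e05c_co.EX.ScSmall
import Pool.Agent.Lib.MP_a3e05c_co.S1.S1
import Pool.Agent.Lib.MP_a3e05c_co.IRR.Small
import Pool.Agent.Lib.MP_a3e05c_co.IRR.NumC4

/-!
# EULER, exits: all scalar facts of the case C8
-/

open Finset

namespace MP_a3e05c_co.KL

theorem scE (hA : HsAnti) {D : ℕ} (hD : Even D) (h4 : 4 ≤ D) : ScE D := by
  have hD2 : Even (D - 2) := by
    obtain ⟨m, hm⟩ := hD
    exact ⟨m - 1, by omega⟩
  refine ⟨?_, ?_, ?_, ?_, S5_num rt_main rt_low hD h4, ?_, ?_⟩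
  · intro d hd h2 hle
    exact hA d D hd hD h2 hle
  · intro d hd h2 hle
    exact hA d (D - 2) hd hD2 h2 (by omega)
  · intro d k hd h1 hk
    have := phiMono d k hd h1 hk
    linarith
  · intro d k _ hk
    rw [phi_G hk]
    have h3 : ((k : ℕ) : ℝ) ≤ (d : ℝ) - 1 := by
      have : ((k + 1 : ℕ) : ℝ) ≤ (d : ℝ) := by exact_mod_cast hk
      push_cast at this
      linarith
    have := pp_nonneg h3
    linarith
  · intro q hq4 hq hs
    rcases Nat.lt_or_ge D 21 with h | h
    · exact ScS_ex1 hD (by omega) hq4 hq hs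
    · have h22 : 22 ≤ D := by
        obtain ⟨m, hm⟩ := hD
        omega
      exact ScL_ex1 hD h22 hq4 hq hs
  · intro q e he heq hq hs
    rcases Nat.lt_or_ge D 21 with h | h
    · exact ScS_ex2 hD (by omega) he heq hq hs
    · have h22 : 22 ≤ D := by
        obtain ⟨m, hm⟩ := hD
        omega
      exact ScL_ex2 hD h22 he hq hs

variable {V E : Type} [Fintype V] [DecidableEq V] [Fintype E] [DecidableEq E]

/-- the step C1 costs nothing; the condition concerns only the neighbours -/
theorem stepOne {hd : E → Bool → V} (hs : Simple hd) (hev : ∀ v, Even (deg hd v)) :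
    StepOne hd := by
  intro A w hw hlt hmax
  have hcard : Fintype.card {u // u ∈ nb hd A w} = kk hd A w := by
    rw [Fintype.card_coe, card_nb hs]
  let e : Fin (kk hd A w) ≃ {u // u ∈ nb hd A w} := (Fintype.equivFinOfCardEq hcard).symm
  have hsum : ∀ g : V → ℝ, ∑ i, g (e i).1 = ∑ u ∈ nb hd A w, g u := by
    intro g
    rw [e.sum_comp (fun u : {u // u ∈ nb hd A w} => g u.1)]
    exact Finset.sum_coe_sort (nb hd A w) g
  have h1 := S1_step rt_main rt_low (hev w) hlt (fun i => deg hd (e i).1)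
    (fun i => kk hd A (e i).1) (fun i => hev _) (fun i => by
      obtain ⟨hu, hadj⟩ := mem_nb.1 (e i).2
      have h3 := kk_erase hs hw (e i).1
      rw [if_pos hadj] at h3
      omega) (fun i => kk_le_deg hs A _) (fun i => hmax _ (e i).2)
  rw [hsum (fun u => rh (deg hd u) (kk hd A u)),
    hsum (fun u => phi (deg hd u) (kk hd A u) - phi (deg hd u) (kk hd A u - 1))] at h1
  have h2 := Sl.step hs hev hw h1
  refine h2.mono (le_of_eq ?_)
  unfold gain
  ring

end MP_a3e05c_co.KL
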