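import Pool.Agent.Lib.MP_a3e05c_co.EX.Case8
import Pool.Agent.Lib.MP_a3e05c_co.S1.Facts
import Pool.Agent.Lib.MP_a3e05c_co.CA.Ud2
import Pool.Agent.Lib.MP_a3e05c_co.NCS.Delta

/-!
# EULER, exits: the scalar inequalities for `D ≥ 22`
-/

set_option linter.unusedSectionVars false

open Finset Real

namespace MP_a3e05c_co.KL

/-- explicit lower bound for `hs (x - 1)` -/
noncomputable def HE (x : ℝ) : ℝ :=
  (29 / 50 + (x - 1) * log (π / 2) / 2 + (x - 3) * log x / 2) / (x * (x - 1)) + 9 / (100 * x ^ 2)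

private theorem ScL_mainR {x : ℝ} (hx : 0 < x) :
    NCS.mainR x = log x / 2 - 1 / 2 - (x - 1) / 2 * (log (π / 2) + log x) := by
  unfold NCS.mainR
  rw [← log_mul (by positivity) hx.ne']
  congr 3
  ring

private theorem ScL_AA {d : ℕ} (hd : Even d) (h2 : 2 ≤ d) :
    (NCS.mainR ((d : ℝ) + 1) + 9 / (100 * ((d : ℝ) + 1))) / ((d : ℝ) + 1) ≤ AA d := by
  have h1 := PK_low_c (d + 1) hd.add_one (by omega)
  have h2 : 0 < PK (d + 1) := lt_of_lt_of_le (exp_pos _) h1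
  rw [← Real.le_log_iff_exp_le h2] at h1
  unfold AA
  push_cast at h1
  exact div_le_div_of_nonneg_right h1 (by positivity)

private theorem ScL_phi {d : ℕ} (h2 : 2 ≤ d) : phi d (d - 1) = NCS.Ud d / d := by
  have h1 := TT_eq_Ud h2
  have hd0 : (0 : ℝ) < (d : ℝ) := by
    have : 0 < d := by omega
    exact_mod_cast this
  have h3 : ((d : ℝ) + 1) * AA d = Real.log (PK (d + 1)) := by
    unfold AA
    field_simp
  unfold TT at h1
  unfold phi
  rw [if_pos (by omega)]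
  have e1 : d - 1 + 1 = d := by omega
  have e2 : ((d - 1 : ℕ) : ℝ) + 1 = d := by
    rw [Nat.cast_sub (by omega)]
    push_cast
    ring
  rw [e1, e2]
  congr 1
  linarith

theorem hs_ge_HE {d : ℕ} (hd : Even d) (h20 : 20 ≤ d) : HE ((d : ℝ) + 1) ≤ KL.hs d := by
  have h1 := ScL_AA hd (by omega)
  have h2 := CA.Ud_le2 d hd h20
  have h3 := ScL_phi (d := d) (by omega)
  have hd20 : (20 : ℝ) ≤ (d : ℝ) := by exact_mod_cast h20
  have hd0 : (0 : ℝ) < (d : ℝ) := by linarith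
  have hx0 : (0 : ℝ) < (d : ℝ) + 1 := by linarith
  have h4 : phi d (d - 1) ≤
      (NCS.mainR ((d : ℝ) + 1) + (log ((d : ℝ) + 1) / 2 - 2 / 25) / ((d : ℝ) + 1)) / d := by
    rw [h3]
    exact div_le_div_of_nonneg_right h2 hd0.le
  have h5 : HE ((d : ℝ) + 1) =
      (NCS.mainR ((d : ℝ) + 1) + 9 / (100 * ((d : ℝ) + 1))) / ((d : ℝ) + 1) -
      (NCS.mainR ((d : ℝ) + 1) + (log ((d : ℝ) + 1) / 2 - 2 / 25) / ((d : ℝ) + 1)) / d := by
    unfold HE
    rw [ScL_mainR hx0]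
    have e1 : (d : ℝ) + 1 - 1 = d := by ring
    rw [e1]
    field_simp
    ring
  rw [h5]
  unfold KL.hs
  linarith

theorem s0_ge_HE {D q : ℕ} (hD : Even D) (h22 : 22 ≤ D) (hq : q ≤ D) :
    -(log ((D : ℝ) + 1) / 2 - 17 / 100) / ((D : ℝ) + 1) +
      q * (HE ((D : ℝ) + 1 - 2) - HE ((D : ℝ) + 1)) ≤ s0 D q := by
  have h1 := ScL_AA hD (by omega)
  have h2 := hs_ge_HE hD (by omega)
  have hD2 : Even (D - 2) := by
    obtain ⟨m, hm⟩ := hD
    exact ⟨m - 1, by omega⟩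
  have h3 := hs_ge_HE hD2 (by omega)
  have e2 : ((D - 2 : ℕ) : ℝ) + 1 = (D : ℝ) + 1 - 2 := by
    rw [Nat.cast_sub (by omega)]
    push_cast
    ring
  rw [e2] at h3
  have hqR : (q : ℝ) ≤ (D : ℝ) := by exact_mod_cast hq
  have hq0 : (0 : ℝ) ≤ (q : ℝ) := Nat.cast_nonneg _
  have hD22 : (22 : ℝ) ≤ (D : ℝ) := by exact_mod_cast h22
  have hx0 : (0 : ℝ) < (D : ℝ) + 1 := by linarith
  have h4 := mul_le_mul_of_nonneg_left h2 (by linarith : (0 : ℝ) ≤ (D : ℝ) - q)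
  have h5 := mul_le_mul_of_nonneg_left h3 hq0
  have h6 : (NCS.mainR ((D : ℝ) + 1) + 9 / (100 * ((D : ℝ) + 1))) / ((D : ℝ) + 1) +
      (D : ℝ) * HE ((D : ℝ) + 1) = -(log ((D : ℝ) + 1) / 2 - 17 / 100) / ((D : ℝ) + 1) := by
    unfold HE
    rw [ScL_mainR hx0]
    have e1 : (D : ℝ) + 1 - 1 = D := by ring
    have hD0 : (D : ℝ) ≠ 0 := by linarith
    rw [e1]
    field_simp
    ring
  unfold s0
  linarith

/-! ### the explicit functions -/

private theorem ScL_log23 {x : ℝ} (hx : 23 ≤ x) : 313 / 100 ≤ log x :=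
  NCS.log_23.trans (log_le_log (by norm_num) hx)

private theorem ScL_step {x : ℝ} (hx : 23 ≤ x) :
    log x ≤ log (x - 2) + 2 * (x - 1) / (x * (x - 2)) := by
  have h0 : 0 < x := by linarith
  have h2 : 0 < x - 2 := by linarith
  have h1 : 1 ≤ x / (x - 2) := by
    rw [le_div_iff₀ h2]
    linarith
  have h3 := Real.self_le_sinh_iff.2 (log_nonneg h1)
  rw [Real.sinh_eq, exp_neg, exp_log (by positivity), log_div h0.ne' h2.ne'] at h3
  have e1 : (x / (x - 2) - (x / (x - 2))⁻¹) / 2 = 2 * (x - 1) / (x * (x - 2)) := by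
    field_simp
    ring
  rw [e1] at h3
  linarith

/-- the explicit lower bound of `x (x - 1) (HE (x - 2) - HE x)` -/
noncomputable def GE (x : ℝ) : ℝ :=
  (x ^ 2 - 8 * x + 9) / ((x - 2) * (x - 3)) * log x + log (π / 2) * ((x - 1) / (x - 2)) +
    29 / 50 * (x * (x - 1) / ((x - 2) * (x - 3)) - 1) -
    (x - 5) * (x - 1) ^ 2 / ((x - 2) ^ 2 * (x - 3)) +
    9 / 100 * (x * (x - 1) / (x - 2) ^ 2 - (x - 1) / x)

theorem ScL_diff {x : ℝ} (hx : 23 ≤ x) : GE x ≤ x * (x - 1) * (HE (x - 2) - HE x) := by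
  have h0 : 0 < x := by linarith
  have h1 : 0 < x - 1 := by linarith
  have h2 : 0 < x - 2 := by linarith
  have h3 : 0 < x - 3 := by linarith
  have h5 : 0 < x - 5 := by linarith
  have h6 : x * (x - 1) * (HE (x - 2) - HE x) - GE x =
      x * (x - 1) * (x - 5) / (2 * ((x - 2) * (x - 3))) *
        (log (x - 2) + 2 * (x - 1) / (x * (x - 2)) - log x) := by
    unfold HE GE
    have e1 : x - 2 - 1 = x - 3 := by ring
    have e2 : x - 2 - 3 = x - 5 := by ring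
    rw [e1, e2]
    field_simp
    ring
  have h7 : 0 ≤ x * (x - 1) * (x - 5) / (2 * ((x - 2) * (x - 3))) *
      (log (x - 2) + 2 * (x - 1) / (x * (x - 2)) - log x) :=
    mul_nonneg (by positivity) (by linarith [ScL_step hx])
  linarith

private theorem ScL_GE_low {x c : ℝ} (hx : 23 ≤ x)
    (hc : c ≤ (x ^ 2 - 8 * x + 9) / ((x - 2) * (x - 3))) :
    (x ^ 2 - 8 * x + 9) / ((x - 2) * (x - 3)) * (313 / 100) + 45 / 100 * ((x - 1) / (x - 2)) +
    29 / 50 * (x * (x - 1) / ((x - 2) * (x - 3)) - 1) -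
    (x - 5) * (x - 1) ^ 2 / ((x - 2) ^ 2 * (x - 3)) +
    9 / 100 * (x * (x - 1) / (x - 2) ^ 2 - (x - 1) / x) ≤ GE x - c * (log x - 313 / 100) := by
  have h1 : 0 < x - 1 := by linarith
  have h2 : 0 < x - 2 := by linarith
  have h4 := mul_nonneg (sub_nonneg.2 hc) (sub_nonneg.2 (ScL_log23 hx))
  have h5 : 45 / 100 * ((x - 1) / (x - 2)) ≤ log (π / 2) * ((x - 1) / (x - 2)) :=
    mul_le_mul_of_nonneg_right NCS.log_pi_half (by positivity)
  unfold GE
  linarith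

theorem ScL_gain {x : ℝ} (hx : 23 ≤ x) : 9 / 4 ≤ GE x := by
  have h0 : 0 < x := by linarith
  have h2 : 0 < x - 2 := by linarith
  have h3 : 0 < x - 3 := by linarith
  have h1 := ScL_GE_low (c := 0) hx (by
    apply div_nonneg
    · nlinarith
    · positivity)
  have h4 : 0 ≤ (x ^ 2 - 8 * x + 9) / ((x - 2) * (x - 3)) * (313 / 100) +
      45 / 100 * ((x - 1) / (x - 2)) +
      29 / 50 * (x * (x - 1) / ((x - 2) * (x - 3)) - 1) -
      (x - 5) * (x - 1) ^ 2 / ((x - 2) ^ 2 * (x - 3)) +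
      9 / 100 * (x * (x - 1) / (x - 2) ^ 2 - (x - 1) / x) - 9 / 4 := by
    have e : (x ^ 2 - 8 * x + 9) / ((x - 2) * (x - 3)) * (313 / 100) +
      45 / 100 * ((x - 1) / (x - 2)) +
      29 / 50 * (x * (x - 1) / ((x - 2) * (x - 3)) - 1) -
      (x - 5) * (x - 1) ^ 2 / ((x - 2) ^ 2 * (x - 3)) +
      9 / 100 * (x * (x - 1) / (x - 2) ^ 2 - (x - 1) / x) - 9 / 4 =
      (3147 / 2 + 365117 / 100 * (x - 23) + 48237 / 100 * (x - 23) ^ 2 +
        2179 / 100 * (x - 23) ^ 3 + 33 / 100 * (x - 23) ^ 4) /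
        (x * (x - 2) ^ 2 * (x - 3)) := by
      field_simp
      ring
    rw [e]
    have : 0 ≤ x - 23 := by linarith
    positivity
  linarith

theorem ScL_gain2 {x : ℝ} (hx : 23 ≤ x) : 3 / 4 * log x - 255 / 1000 ≤ GE x := by
  have h0 : 0 < x := by linarith
  have h2 : 0 < x - 2 := by linarith
  have h3 : 0 < x - 3 := by linarith
  have h1 := ScL_GE_low (c := 3 / 4) hx (by
    rw [div_le_div_iff₀ (by norm_num) (by positivity)]
    nlinarith)
  have h4 : 0 ≤ (x ^ 2 - 8 * x + 9) / ((x - 2) * (x - 3)) * (313 / 100) +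
      45 / 100 * ((x - 1) / (x - 2)) +
      29 / 50 * (x * (x - 1) / ((x - 2) * (x - 3)) - 1) -
      (x - 5) * (x - 1) ^ 2 / ((x - 2) ^ 2 * (x - 3)) +
      9 / 100 * (x * (x - 1) / (x - 2) ^ 2 - (x - 1) / x) - (3 / 4 * (313 / 100) - 255 / 1000) := by
    have e : (x ^ 2 - 8 * x + 9) / ((x - 2) * (x - 3)) * (313 / 100) +
      45 / 100 * ((x - 1) / (x - 2)) +
      29 / 50 * (x * (x - 1) / ((x - 2) * (x - 3)) - 1) -
      (x - 5) * (x - 1) ^ 2 / ((x - 2) ^ 2 * (x - 3)) +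
      9 / 100 * (x * (x - 1) / (x - 2) ^ 2 - (x - 1) / x) - (3 / 4 * (313 / 100) - 255 / 1000) =
      (670479 / 20 + 3872297 / 400 * (x - 23) + 363489 / 400 * (x - 23) ^ 2 +
        14071 / 400 * (x - 23) ^ 3 + 39 / 80 * (x - 23) ^ 4) /
        (x * (x - 2) ^ 2 * (x - 3)) := by
      field_simp
      ring
    rw [e]
    have : 0 ≤ x - 23 := by linarith
    positivity
  linarith

/-! ### the inequalities multiplied by `x (x - 1)` -/

theorem ScL_s0 {D q : ℕ} (hD : Even D) (h22 : 22 ≤ D) (hq : q ≤ D) :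
    -(D : ℝ) * (log ((D : ℝ) + 1) / 2 - 17 / 100) + q * GE ((D : ℝ) + 1) ≤
      ((D : ℝ) + 1) * D * s0 D q := by
  have h1 := s0_ge_HE hD h22 hq
  have hD22 : (22 : ℝ) ≤ (D : ℝ) := by exact_mod_cast h22
  have h2 := ScL_diff (x := (D : ℝ) + 1) (by linarith)
  have e1 : (D : ℝ) + 1 - 1 = D := by ring
  rw [e1] at h2
  have hx0 : (0 : ℝ) < (D : ℝ) + 1 := by linarith
  have hD0 : (0 : ℝ) < (D : ℝ) := by linarith
  have h3 := mul_le_mul_of_nonneg_left h1 (mul_pos hx0 hD0).le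
  have h4 := mul_le_mul_of_nonneg_left h2 (Nat.cast_nonneg q : (0 : ℝ) ≤ (q : ℝ))
  have e2 : ((D : ℝ) + 1) * D * (-(log ((D : ℝ) + 1) / 2 - 17 / 100) / ((D : ℝ) + 1) +
      q * (HE ((D : ℝ) + 1 - 2) - HE ((D : ℝ) + 1))) =
      -(D : ℝ) * (log ((D : ℝ) + 1) / 2 - 17 / 100) +
      q * (((D : ℝ) + 1) * D * (HE ((D : ℝ) + 1 - 2) - HE ((D : ℝ) + 1))) := by
    field_simp
  rw [e2] at h3
  linarith

theorem ScL_hs {D : ℕ} (hD : Even D) (h22 : 22 ≤ D) :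
    29 / 50 + 9 / 40 * (D : ℝ) + ((D : ℝ) - 2) * log ((D : ℝ) + 1) / 2 ≤
      ((D : ℝ) + 1) * D * KL.hs D := by
  have h1 := hs_ge_HE hD (by omega)
  have hD22 : (22 : ℝ) ≤ (D : ℝ) := by exact_mod_cast h22
  have hx0 : (0 : ℝ) < (D : ℝ) + 1 := by linarith
  have hD0 : (0 : ℝ) < (D : ℝ) := by linarith
  have h3 := mul_le_mul_of_nonneg_left h1 (mul_pos hx0 hD0).le
  have e2 : ((D : ℝ) + 1) * D * HE ((D : ℝ) + 1) =
      29 / 50 + (D : ℝ) * log (π / 2) / 2 + ((D : ℝ) - 2) * log ((D : ℝ) + 1) / 2 +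
      9 / 100 * (D / ((D : ℝ) + 1)) := by
    unfold HE
    have e1 : (D : ℝ) + 1 - 1 = D := by ring
    have e3 : (D : ℝ) + 1 - 3 = D - 2 := by ring
    rw [e1, e3]
    field_simp
  rw [e2] at h3
  have h4 := mul_le_mul_of_nonneg_left NCS.log_pi_half hD0.le
  have h5 : 0 ≤ 9 / 100 * ((D : ℝ) / ((D : ℝ) + 1)) := by positivity
  linarith

theorem ScL_q {D q : ℕ} (hD : Even D) (h22 : 22 ≤ D) (hq : q ≤ D) (hs : s0 D q < 0) :
    3 * (q : ℝ) ≤ 2 * D := by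
  have h1 := ScL_s0 hD h22 hq
  have hD22 : (22 : ℝ) ≤ (D : ℝ) := by exact_mod_cast h22
  have hx0 : (0 : ℝ) < (D : ℝ) + 1 := by linarith
  have hD0 : (0 : ℝ) < (D : ℝ) := by linarith
  have h2 : ((D : ℝ) + 1) * D * s0 D q < 0 := mul_neg_of_pos_of_neg (mul_pos hx0 hD0) hs
  have h3 := ScL_gain2 (x := (D : ℝ) + 1) (by linarith)
  have h4 := ScL_log23 (x := (D : ℝ) + 1) (by linarith)
  have h5 := mul_le_mul_of_nonneg_left h3 (Nat.cast_nonneg q : (0 : ℝ) ≤ (q : ℝ))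
  have h6 : (log ((D : ℝ) + 1) / 2 - 17 / 100) * (3 / 2 * (q : ℝ) - D) < 0 := by linarith
  have h7 : 0 < log ((D : ℝ) + 1) / 2 - 17 / 100 := by linarith
  by_contra hc
  push Not at hc
  have : 0 ≤ (log ((D : ℝ) + 1) / 2 - 17 / 100) * (3 / 2 * (q : ℝ) - D) :=
    mul_nonneg h7.le (by linarith)
  linarith

private theorem ScL_log_up {x : ℝ} (hx : 0 < x) : log x ≤ x / 8 + 108 / 100 := by
  have h1 := log_le_sub_one_of_pos (x := x / 8) (by positivity)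
  rw [log_div hx.ne' (by norm_num)] at h1
  have h2 : log (8 : ℝ) = 3 * log 2 := by
    have : (8 : ℝ) = 2 ^ 3 := by norm_num
    rw [this, log_pow]
    norm_num
  have h3 := log_two_lt_d9
  linarith

private theorem ScL_z {q r D : ℝ} (hD : 22 ≤ D) (hq : 4 ≤ q) (hr : D + 1 - q = r)
    (hqD : 3 * q ≤ 2 * D) :
    2 / (r * (r + 1)) + (q - 4) ^ 2 / ((D - 3) ^ 2 * (r + 1)) ≤ 1 / 10 ∧
    (D + 1) * D * (2 / (r * (r + 1)) + (q - 4) ^ 2 / ((D - 3) ^ 2 * (r + 1))) ≤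
      18 + 2 * (q - 4) := by
  have hr1 : (D + 3) / 3 ≤ r := by linarith
  have hr0 : 25 / 3 ≤ r := by linarith
  have hrp : 0 < r := by linarith
  have hD3 : 0 < D - 3 := by linarith
  have hq4 : 0 ≤ q - 4 := by linarith
  have h1 : 2 / (r * (r + 1)) ≤ 18 / ((D + 1) * D) := by
    rw [div_le_div_iff₀ (by positivity) (by positivity)]
    have h2 : (D + 3) * (D + 6) / 9 ≤ r * (r + 1) := by nlinarith
    nlinarith
  have h3 : (q - 4) / (D - 3) ≤ 2 / 3 := by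
    rw [div_le_div_iff₀ (by positivity) (by norm_num)]
    linarith
  have h3' : 0 ≤ (q - 4) / (D - 3) := by positivity
  have h4 : (q - 4) ^ 2 / ((D - 3) ^ 2 * (r + 1)) = ((q - 4) / (D - 3)) ^ 2 * (1 / (r + 1)) := by
    rw [div_pow]
    field_simp
  have h5 : 1 / (r + 1) ≤ 3 / (D + 6) := by
    rw [div_le_div_iff₀ (by positivity) (by positivity)]
    linarith
  constructor
  · rw [h4]
    have h6 : 2 / (r * (r + 1)) ≤ 2 / (25 / 3 * (28 / 3)) := by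
      apply div_le_div_of_nonneg_left (by norm_num) (by norm_num)
      nlinarith
    have h7 : ((q - 4) / (D - 3)) ^ 2 ≤ (2 / 3) ^ 2 := pow_le_pow_left₀ h3' h3 2
    have h8 : 1 / (r + 1) ≤ 3 / 28 := by
      rw [div_le_div_iff₀ (by positivity) (by norm_num)]
      linarith
    have h9 : ((q - 4) / (D - 3)) ^ 2 * (1 / (r + 1)) ≤ (2 / 3) ^ 2 * (3 / 28) :=
      mul_le_mul h7 h8 (by positivity) (by norm_num)
    norm_num at h6 h9 ⊢
    linarith
  · rw [mul_add]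
    apply add_le_add
    · have := mul_le_mul_of_nonneg_left h1 (by positivity : 0 ≤ (D + 1) * D)
      rwa [mul_div_cancel₀ _ (by positivity)] at this
    · rw [h4]
      have e1 : (D + 1) * D * (((q - 4) / (D - 3)) ^ 2 * (1 / (r + 1))) =
          (q - 4) * (((q - 4) / (D - 3)) * ((D + 1) * D / (D - 3) * (1 / (r + 1)))) := by
        field_simp
      rw [e1]
      have h6 : (D + 1) * D / (D - 3) * (1 / (r + 1)) ≤ 3 := by
        have h7 : (D + 1) * D / (D - 3) * (1 / (r + 1)) ≤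
            (D + 1) * D / (D - 3) * (3 / (D + 6)) :=
          mul_le_mul_of_nonneg_left h5 (by positivity)
        have h8 : (D + 1) * D / (D - 3) * (3 / (D + 6)) ≤ 3 := by
          rw [div_mul_div_comm, div_le_iff₀ (by positivity)]
          nlinarith
        linarith
      have h9 : ((q - 4) / (D - 3)) * ((D + 1) * D / (D - 3) * (1 / (r + 1))) ≤ 2 / 3 * 3 :=
        mul_le_mul h3 h6 (by positivity) (by norm_num)
      have h10 := mul_le_mul_of_nonneg_left h9 hq4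
      linarith

theorem ScL_ex1 {D q : ℕ} (hD : Even D) (h22 : 22 ≤ D) (hq4 : 4 ≤ q) (hq : q < D)
    (hs : s0 D q < 0) : 0 ≤ s0 D q + KL.hs D + 1 / 2 * log (1 - zE D q) := by
  have h1 := ScL_s0 hD h22 hq.le
  have h2 := ScL_hs hD h22
  have h3 := ScL_q hD h22 hq.le hs
  have hD22 : (22 : ℝ) ≤ (D : ℝ) := by exact_mod_cast h22
  have hq4R : (4 : ℝ) ≤ (q : ℝ) := by exact_mod_cast hq4
  have hx0 : (0 : ℝ) < (D : ℝ) + 1 := by linarith
  have hD0 : (0 : ℝ) < (D : ℝ) := by linarith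
  obtain ⟨h4, h5⟩ := ScL_z (r := (D : ℝ) + 1 - q) hD22 hq4R rfl h3
  have e1 : zE D q = 2 / (((D : ℝ) + 1 - q) * ((D : ℝ) + 1 - q + 1)) +
      ((q : ℝ) - 4) ^ 2 / (((D : ℝ) - 3) ^ 2 * ((D : ℝ) + 1 - q + 1)) := by
    unfold zE
    have : (D : ℝ) + 2 - q = (D : ℝ) + 1 - q + 1 := by ring
    rw [this]
  rw [← e1] at h4 h5
  have hz0 : 0 ≤ zE D q := by
    rw [e1]
    have : 0 < (D : ℝ) + 1 - q := by linarith
    positivity
  have h6 : -(5 / 9) * zE D q ≤ 1 / 2 * log (1 - zE D q) := by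
    have h7 := Real.one_sub_inv_le_log_of_pos (x := 1 - zE D q) (by linarith)
    have h8 : -(10 / 9) * zE D q ≤ 1 - (1 - zE D q)⁻¹ := by
      have h9 : (1 - zE D q)⁻¹ ≤ 1 + 10 / 9 * zE D q := by
        rw [inv_le_iff_one_le_mul₀ (by linarith)]
        nlinarith
      linarith
    linarith
  have h7 := ScL_gain (x := (D : ℝ) + 1) (by linarith)
  have h8 := ScL_log_up (x := (D : ℝ) + 1) hx0
  have h9 := mul_le_mul_of_nonneg_left h7 (Nat.cast_nonneg q : (0 : ℝ) ≤ (q : ℝ))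
  have h10 : 0 ≤ ((D : ℝ) + 1) * D * (s0 D q + KL.hs D - 5 / 9 * zE D q) := by
    have e2 : ((D : ℝ) + 1) * D * (s0 D q + KL.hs D - 5 / 9 * zE D q) =
        ((D : ℝ) + 1) * D * s0 D q + ((D : ℝ) + 1) * D * KL.hs D -
        5 / 9 * (((D : ℝ) + 1) * D * zE D q) := by ring
    rw [e2]
    linarith
  have h11 := nonneg_of_mul_nonneg_right h10 (mul_pos hx0 hD0)
  linarith

theorem ScL_ex2 {D q e : ℕ} (hD : Even D) (h22 : 22 ≤ D) (he : 2 ≤ e)
    (hq : q < D) (hs : s0 D q < 0) :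
    0 ≤ s0 D q + e * KL.hs D - 1 / 2 * log (1 + (e : ℝ) / (D - q)) := by
  have h1 := ScL_s0 hD h22 hq.le
  have h2 := ScL_hs hD h22
  have h3 := ScL_q hD h22 hq.le hs
  have hD22 : (22 : ℝ) ≤ (D : ℝ) := by exact_mod_cast h22
  have heR : (2 : ℝ) ≤ (e : ℝ) := by exact_mod_cast he
  have hx0 : (0 : ℝ) < (D : ℝ) + 1 := by linarith
  have hD0 : (0 : ℝ) < (D : ℝ) := by linarith
  obtain ⟨y, hy⟩ : ∃ y : ℝ, y = (D : ℝ) - q := ⟨_, rfl⟩
  have hy1 : (D : ℝ) / 3 ≤ y := by linarith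
  have hy0 : 0 < y := by linarith
  have hy2 : y ≤ D := by
    have : (0 : ℝ) ≤ (q : ℝ) := Nat.cast_nonneg q
    linarith
  rw [← hy]
  have h4 : log (1 + (e : ℝ) / y) ≤ e / y := by
    have := log_le_sub_one_of_pos (x := 1 + (e : ℝ) / y) (by positivity)
    linarith
  have h5 : ((D : ℝ) + 1) * D / y ≤ 4 * (D + 1) - 3 * y := by
    rw [div_le_iff₀ hy0]
    nlinarith [mul_nonneg (by linarith : (0 : ℝ) ≤ 3 * y - D) (by linarith : (0 : ℝ) ≤ D - y)]
  have h5' : ((D : ℝ) + 1) * D / y ≤ 3 * (D + 1) := by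
    rw [div_le_iff₀ hy0]
    nlinarith
  have h7 := ScL_gain (x := (D : ℝ) + 1) (by linarith)
  have h8 := ScL_log23 (x := (D : ℝ) + 1) (by linarith)
  have h9 := mul_le_mul_of_nonneg_left h7 (Nat.cast_nonneg q : (0 : ℝ) ≤ (q : ℝ))
  have hK : 0 ≤ ((D : ℝ) + 1) * D * KL.hs D - ((D : ℝ) + 1) * D / y / 2 := by
    have h12 := mul_le_mul_of_nonneg_left h8 (by linarith : (0 : ℝ) ≤ (D : ℝ) - 2)
    linarith
  have hK2 := mul_le_mul_of_nonneg_right heR hK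
  have h12 := mul_le_mul_of_nonneg_left h8 (by linarith : (0 : ℝ) ≤ (D : ℝ) - 4)
  have h10 : 0 ≤ ((D : ℝ) + 1) * D * (s0 D q + e * KL.hs D - 1 / 2 * (e / y)) := by
    have e2 : ((D : ℝ) + 1) * D * (s0 D q + e * KL.hs D - 1 / 2 * (e / y)) =
        ((D : ℝ) + 1) * D * s0 D q +
        e * (((D : ℝ) + 1) * D * KL.hs D - ((D : ℝ) + 1) * D / y / 2) := by
      field_simp
      ring
    rw [e2]
    nlinarith
  have h11 := nonneg_of_mul_nonneg_right h10 (mul_pos hx0 hD0)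
  linarith

end MP_a3e05c_co.KL
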