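import Pool.Agent.Lib.MP_a3e05c_co.IRR.Defs
import Pool.Agent.Lib.MP_a3e05c_co.S1.Hs

/-!
# EULER, exits: deletion of several vertices
-/

set_option linter.unusedSectionVars false

open Finset

namespace MP_a3e05c_co.KL

variable {V E : Type} [Fintype V] [DecidableEq V] [Fintype E] [DecidableEq E]

/-- decrease of the potential of `u` if a neighbour of `u` is deleted -/
noncomputable def dphE (hd : E → Bool → V) (A : Finset V) (u : V) : ℝ :=
  phi (deg hd u) (kk hd A u) - phi (deg hd u) (kk hd A u - 1)

theorem gain_dphE (hd : E → Bool → V) (A : Finset V) (w : V) :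
    gain hd A w = ∑ u ∈ nb hd A w, dphE hd A u := rfl

/-- a vertex with a neighbour in a set has a positive degree -/
theorem kk_posE {hd : E → Bool → V} (hs : Simple hd) {A : Finset V} {w u : V} (hw : w ∈ A)
    (hu : u ∈ nb hd A w) : 1 ≤ kk hd A u := by
  have h := kk_erase hs hw u
  rw [if_pos (mem_nb.1 hu).2] at h
  omega

theorem dphE_full {hd : E → Bool → V} {A : Finset V} {u : V} (h : kk hd A u = deg hd u) :
    dphE hd A u = KL.hs (deg hd u) := by
  unfold dphE KL.hs
  rw [h, phi_full]

/-- one step, at a vertex which is not full and has the largest number of alive neighbours in its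
neighbourhood (case C1) -/
def StepOne (hd : E → Bool → V) : Prop := ∀ (B : Finset V) (v : V), v ∈ B →
  kk hd B v < deg hd v → (∀ u ∈ nb hd B v, kk hd B u ≤ kk hd B v) → Sl hd B (B.erase v) 0

theorem nb_sdiff (hd : E → Bool → V) (A S : Finset V) (u : V) :
    nb hd (A \ S) u = nb hd A u \ S := by
  ext v
  rw [mem_nb, mem_sdiff, mem_sdiff, mem_nb]
  tauto

/-- `S` consists of neighbours of `u` -/
theorem kk_sdiff_sub {hd : E → Bool → V} (hs : Simple hd) {A S : Finset V} {u : V}
    (hS : S ⊆ nb hd A u) : kk hd (A \ S) u + S.card = kk hd A u := by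
  rw [← card_nb hs, ← card_nb hs, nb_sdiff]
  exact card_sdiff_add_card_eq_card hS

/-- `S` contains no neighbour of `u` -/
theorem kk_sdiff_disj {hd : E → Bool → V} (hs : Simple hd) {A S : Finset V} {u : V}
    (hS : ∀ v ∈ S, ¬ Adj hd u v) : kk hd (A \ S) u = kk hd A u := by
  rw [← card_nb hs, ← card_nb hs, nb_sdiff]
  congr 1
  ext v
  rw [mem_sdiff, mem_nb]
  constructor
  · exact fun h => h.1
  · exact fun h => ⟨h, fun hv => hS v hv h.2⟩

/-- deletion of the set `T`, one vertex after the other -/
theorem chain_steps {hd : E → Bool → V} (h1 : StepOne hd) {B : Finset V}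
    (T : Finset V) : T ⊆ B → (∀ T' ⊆ T, ∀ v ∈ T, v ∉ T' → kk hd (B \ T') v < deg hd v ∧
      ∀ u ∈ nb hd (B \ T') v, kk hd (B \ T') u ≤ kk hd (B \ T') v) →
      Sl hd B (B \ T) 0 := by
  induction T using Finset.induction_on with
  | empty =>
    intro _ _
    rw [sdiff_empty]
    exact Sl.refl hd B
  | insert v T hv ih =>
    intro hT h
    have hT0 : T ⊆ B := fun x hx => hT (mem_insert_of_mem hx)
    have hvB : v ∈ B \ T := mem_sdiff.2 ⟨hT (mem_insert_self _ _), hv⟩
    have h2 := ih hT0 (fun T' hT' x hx hxT =>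
      h T' (hT'.trans (subset_insert _ _)) x (mem_insert_of_mem hx) hxT)
    obtain ⟨h3, h4⟩ := h T (subset_insert _ _) v (mem_insert_self _ _) hv
    have h5 := h1 (B \ T) v hvB h3 h4
    have h7 : (B \ T).erase v = B \ insert v T := by
      ext x
      rw [mem_erase, mem_sdiff, mem_sdiff, mem_insert]
      tauto
    rw [h7] at h5
    have h6 := h2.trans h5
    rwa [add_zero] at h6

end MP_a3e05c_co.KL
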